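import Mathlib

/-!
Block FP of MP_79a731_al: amalgams over a common retract (free products when `C = 1`).

`G = PushoutI φ` is the amalgamated product of the groups `A i` over `C` (maps `φ i : C → A i`), and
`ρ i : A i → C` is a retraction, `ρ i (φ i c) = c`. Put `K i = ker (ρ i)`.

Theorem (`StMain`): a finitely generated projective `ℤG`-module is perfect and nonzero for some `G` as above
only if this happens already for one of the `A i`.

Paper proof. Every `g` in `G` is uniquely `c k_1 ... k_r` with `c` in `C`, `k_j` in `K i_j`, `k_j ≠ 1`,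
`i_1 ≠ i_2 ≠ ...` (normal form). Let `L m` be the additive group generated by all
`c (k_1 - 1) ... (k_r - 1)` with such data and `r ≥ m`. Then `L 0 = ℤG`; an `x` in `ℤG` with image `0` in
all `ℤ[A i]` lies in `L 2`; `L 2 * L m ⊆ L (m + 1)`, because `(k - 1) (k' - 1) = (k k' - 1) - (k - 1) - (k' - 1)` loses at
most one letter; and the intersection of all `L m` is `0` (compare longest words). If `e` is an idempotent matrix over
`ℤG` with image `0` over all `ℤ[A i]`, then its entries lie in `L 2`, and `e = e * e` gives `L 3`, `L 4`, ..., so `e = 0`.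
-/

set_option autoImplicit false

namespace Pool.Agent.Work.MP_79a731_al.FP

open Monoid

universe u

variable {ι : Type u} {A : ι → Type u} {C : Type u} [∀ i, Group (A i)] [Group C]

/-- Reduced lists: the letters are nontrivial elements of the kernels of the retractions, neighbouring letters lie
in different factors. -/
def Red (ρ : ∀ i, A i →* C) (l : List (Σ i, A i)) : Prop :=
  (∀ x ∈ l, ρ x.1 x.2 = 1 ∧ x.2 ≠ 1) ∧ l.IsChain fun x y => x.1 ≠ y.1

/-- the product of the letters -/
def val (φ : ∀ i, C →* A i) (l : List (Σ i, A i)) : PushoutI φ :=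
  (l.map fun x => PushoutI.of (φ := φ) x.1 x.2).prod

/-- the element `a` of the factor `A i`, in the group ring -/
noncomputable def sf (φ : ∀ i, C →* A i) (i : ι) (a : A i) : MonoidAlgebra ℤ (PushoutI φ) :=
  MonoidAlgebra.single (PushoutI.of (φ := φ) i a) 1

/-- the element `c` of `C`, in the group ring -/
noncomputable def sc (φ : ∀ i, C →* A i) (c : C) : MonoidAlgebra ℤ (PushoutI φ) :=
  MonoidAlgebra.single (PushoutI.base φ c) 1

/-- the product of the elements `k - 1` over the letters `k` of the list -/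
noncomputable def bet (φ : ∀ i, C →* A i) (l : List (Σ i, A i)) : MonoidAlgebra ℤ (PushoutI φ) :=
  (l.map fun x => sf φ x.1 x.2 - 1).prod

/-- spanned by the `bet l`, `l` reduced of length at least `m` -/
noncomputable def Lb (φ : ∀ i, C →* A i) (ρ : ∀ i, A i →* C) (m : ℕ) : AddSubgroup (MonoidAlgebra ℤ (PushoutI φ)) :=
  AddSubgroup.closure {x | ∃ l : List (Σ i, A i), Red ρ l ∧ m ≤ l.length ∧ x = bet φ l}

/-- spanned by the `bet l`, `l` reduced of length at least `m` and with first letter in the factor `i` -/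
noncomputable def Li (φ : ∀ i, C →* A i) (ρ : ∀ i, A i →* C) (i : ι) (m : ℕ) :
    AddSubgroup (MonoidAlgebra ℤ (PushoutI φ)) :=
  AddSubgroup.closure {x | ∃ (k : A i) (l : List (Σ i, A i)), Red ρ (⟨i, k⟩ :: l) ∧ m ≤ l.length + 1 ∧
    x = bet φ (⟨i, k⟩ :: l)}

/-- spanned by the `c * bet l`, `l` reduced of length at least `m` -/
noncomputable def Lf (φ : ∀ i, C →* A i) (ρ : ∀ i, A i →* C) (m : ℕ) : AddSubgroup (MonoidAlgebra ℤ (PushoutI φ)) :=
  AddSubgroup.closure {x | ∃ (c : C) (l : List (Σ i, A i)), Red ρ l ∧ m ≤ l.length ∧ x = sc φ c * bet φ l}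

/-- (EX) normal forms exist. (`PushoutI.induction_on` with left multiplication, or `NormalWord.equiv`
with the transversal `ker ρ i`.) -/
def StEX : Prop := ∀ {ι : Type u} {A : ι → Type u} {C : Type u} [∀ i, Group (A i)] [Group C] (φ : ∀ i, C →* A i)
    (ρ : ∀ i, A i →* C), (∀ i c, ρ i (φ i c) = c) → ∀ g : PushoutI φ, ∃ (c : C) (l : List (Σ i, A i)),
    Red ρ l ∧ g = PushoutI.base φ c * val φ l

/-- (UN) normal forms are unique: `Monoid.PushoutI.NormalWord.prod_injective` for the transversal with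
`set i = ker (ρ i)` (a complement of the range of `φ i` because `ρ i` is a retraction). -/
def StUN : Prop := ∀ {ι : Type u} {A : ι → Type u} {C : Type u} [∀ i, Group (A i)] [Group C] (φ : ∀ i, C →* A i)
    (ρ : ∀ i, A i →* C), (∀ i c, ρ i (φ i c) = c) → ∀ (c c' : C) (l l' : List (Σ i, A i)),
    Red ρ l → Red ρ l' → PushoutI.base φ c * val φ l = PushoutI.base φ c' * val φ l' → c = c' ∧ l = l'

/-- (K1) left multiplication by `k - 1`, `k` in `ker ρ i`, sends `bet l` to words beginning with the factor `i`, without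
loss of length. (First letter of `l` in another factor or `l = []`: `bet (k :: l)`, or `0` if `k = 1`. First letter `k'`
in the factor `i`, `l = k' :: t`: `(k - 1) (k' - 1) = (k k' - 1) - (k - 1) - (k' - 1)`, each times `bet t`.) -/
def StK1 : Prop := ∀ {ι : Type u} {A : ι → Type u} {C : Type u} [∀ i, Group (A i)] [Group C] (φ : ∀ i, C →* A i)
    (ρ : ∀ i, A i →* C) (i : ι) (k : A i) (l : List (Σ i, A i)) (m : ℕ), ρ i k = 1 → Red ρ l → m ≤ l.length →
    (sf φ i k - 1) * bet φ l ∈ Li φ ρ i m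

/-- (K2) left multiplication by `k - 1`, `k` in `ker ρ i`, of words beginning with another factor `j` gains a letter. -/
def StK2 : Prop := ∀ {ι : Type u} {A : ι → Type u} {C : Type u} [∀ i, Group (A i)] [Group C] (φ : ∀ i, C →* A i)
    (ρ : ∀ i, A i →* C) (i j : ι) (k : A i) (m : ℕ) (x : MonoidAlgebra ℤ (PushoutI φ)), i ≠ j → ρ i k = 1 →
    x ∈ Li φ ρ j m → (sf φ i k - 1) * x ∈ Li φ ρ i (m + 1)

/-- (ML) from K1 and K2: a reduced product with at least two letters raises the length. (Induction on `l`: for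
`l = a :: b :: t` reduced, `bet l * bet l'` is in `Li (index of a) (m + 1)`; start with K1 for the last letter.) -/
def StML : Prop := ∀ {ι : Type u} {A : ι → Type u} {C : Type u} [∀ i, Group (A i)] [Group C] (φ : ∀ i, C →* A i)
    (ρ : ∀ i, A i →* C) (l l' : List (Σ i, A i)) (m : ℕ), Red ρ l → 2 ≤ l.length → Red ρ l' → m ≤ l'.length →
    bet φ l * bet φ l' ∈ Lb φ ρ (m + 1)

/-- (CM) `bet l * c = c * bet l'` with `l'` the list of the letters `φ i c⁻¹ * k * φ i c`. -/
def StCM : Prop := ∀ {ι : Type u} {A : ι → Type u} {C : Type u} [∀ i, Group (A i)] [Group C] (φ : ∀ i, C →* A i)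
    (ρ : ∀ i, A i →* C), (∀ i c, ρ i (φ i c) = c) → ∀ (c : C) (l : List (Σ i, A i)), Red ρ l →
    ∃ l' : List (Σ i, A i), Red ρ l' ∧ l'.length = l.length ∧ bet φ l * sc φ c = sc φ c * bet φ l'

/-- (L2) from ML and CM: `L 2 * L m ⊆ L (m + 1)`. -/
def StL2 : Prop := ∀ {ι : Type u} {A : ι → Type u} {C : Type u} [∀ i, Group (A i)] [Group C] (φ : ∀ i, C →* A i)
    (ρ : ∀ i, A i →* C), (∀ i c, ρ i (φ i c) = c) → ∀ (m : ℕ) (x y : MonoidAlgebra ℤ (PushoutI φ)),
    x ∈ Lf φ ρ 2 → y ∈ Lf φ ρ m → x * y ∈ Lf φ ρ (m + 1)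

/-- (TP) `L 0` is everything. (It contains `1 = sc 1 * bet []`; it is stable under left multiplication by the group elements
`of i a` and `base c`: `a φ_i(c) = φ_i(c') k` with `c' = ρ_i(a) c`, `k` in the kernel, and `k * bet l = (k - 1) * bet l + bet l`, use K1 and
`Li ≤ Lb`; then `PushoutI.induction_on`.) -/
def StTP : Prop := ∀ {ι : Type u} {A : ι → Type u} {C : Type u} [∀ i, Group (A i)] [Group C] (φ : ∀ i, C →* A i)
    (ρ : ∀ i, A i →* C), (∀ i c, ρ i (φ i c) = c) → ∀ x : MonoidAlgebra ℤ (PushoutI φ), x ∈ Lf φ ρ 0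

/-- (RT) the retractions `π i : G → A i` (identity on `A i`, `φ i ∘ ρ j` on `A j` for `j ≠ i`): `PushoutI.lift`. -/
def StRT : Prop := ∀ {ι : Type u} {A : ι → Type u} {C : Type u} [∀ i, Group (A i)] [Group C] (φ : ∀ i, C →* A i)
    (ρ : ∀ i, A i →* C), (∀ i c, ρ i (φ i c) = c) → ∃ π : ∀ i, PushoutI φ →* A i,
    (∀ i a, π i (PushoutI.of i a) = a) ∧ (∀ i j a, j ≠ i → π i (PushoutI.of j a) = φ i (ρ j a)) ∧
    (∀ i c, π i (PushoutI.base φ c) = φ i c)

/-- (SP) splitting by length: every element of `L 0` is a sum of an element of the span of the `sc c` and `sc c * (k - 1)`,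
`k` in some `ker ρ i`, and an element of `L 2`. -/
def StSP : Prop := ∀ {ι : Type u} {A : ι → Type u} {C : Type u} [∀ i, Group (A i)] [Group C] (φ : ∀ i, C →* A i)
    (ρ : ∀ i, A i →* C) (x : MonoidAlgebra ℤ (PushoutI φ)), x ∈ Lf φ ρ 0 →
    ∃ y ∈ AddSubgroup.closure ({x | ∃ c : C, x = sc φ c} ∪ {x | ∃ (c : C) (i : ι) (k : A i), ρ i k = 1 ∧
      x = sc φ c * (sf φ i k - 1)}), ∃ z ∈ Lf φ ρ 2, x = y + z

/-- (P2) the retractions vanish on `L 2`. -/
def StP2 : Prop := ∀ {ι : Type u} {A : ι → Type u} {C : Type u} [∀ i, Group (A i)] [Group C] (φ : ∀ i, C →* A i)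
    (ρ : ∀ i, A i →* C) (π : ∀ i, PushoutI φ →* A i), (∀ i a, π i (PushoutI.of i a) = a) →
    (∀ i j a, j ≠ i → π i (PushoutI.of j a) = φ i (ρ j a)) → (∀ i c, π i (PushoutI.base φ c) = φ i c) →
    ∀ (i : ι) (x : MonoidAlgebra ℤ (PushoutI φ)), x ∈ Lf φ ρ 2 → MonoidAlgebra.mapDomainRingHom ℤ (π i) x = 0

/-- (Z1) an element of the span of the `sc c` and `sc c * (k - 1)` which vanishes under all retractions is `0`. (`ι` nonempty. For `y`
in that span there is a finite set `s` of indices such that for all finite `t ⊇ s`, with `σ y` = image of `y` under `G → C → G`,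
`y - σ y = ∑ i ∈ t, (ι_i (π_i y) - σ y)`: closure induction. The map `G → C` is `ρ i ∘ π i` for one `i`.) -/
def StZ1 : Prop := ∀ {ι : Type u} {A : ι → Type u} {C : Type u} [∀ i, Group (A i)] [Group C] [Nonempty ι]
    (φ : ∀ i, C →* A i) (ρ : ∀ i, A i →* C) (π : ∀ i, PushoutI φ →* A i), (∀ i c, ρ i (φ i c) = c) →
    (∀ i a, π i (PushoutI.of i a) = a) → (∀ i j a, j ≠ i → π i (PushoutI.of j a) = φ i (ρ j a)) →
    (∀ i c, π i (PushoutI.base φ c) = φ i c) → ∀ y ∈ AddSubgroup.closure ({x | ∃ c : C, x = sc φ c} ∪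
      {x | ∃ (c : C) (i : ι) (k : A i), ρ i k = 1 ∧ x = sc φ c * (sf φ i k - 1)}),
    (∀ i, MonoidAlgebra.mapDomainRingHom ℤ (π i) y = 0) → y = 0

/-- (LN) a length function. (`len g` = length of the normal form, from EX and UN; `of i k` with `ρ i k = 1`
changes it by at most one, by merging or adding the first letter; note `a * base c = base c' * k` in the first step.) -/
def StLN : Prop := ∀ {ι : Type u} {A : ι → Type u} {C : Type u} [∀ i, Group (A i)] [Group C] (φ : ∀ i, C →* A i)
    (ρ : ∀ i, A i →* C), (∀ i c, ρ i (φ i c) = c) → ∃ len : PushoutI φ → ℕ,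
    (∀ (c : C) (l : List (Σ i, A i)), Red ρ l → len (PushoutI.base φ c * val φ l) = l.length) ∧
    (∀ (i : ι) (k : A i) (g : PushoutI φ), len (PushoutI.of i k * g) ≤ len g + 1) ∧
    (∀ (c : C) (g : PushoutI φ), len (PushoutI.base φ c * g) = len g)

/-- (TR) triangularity: `c * bet l` is the group element `c * val l` plus elements of smaller length. (Induction on `l`.) -/
def StTR : Prop := ∀ {ι : Type u} {A : ι → Type u} {C : Type u} [∀ i, Group (A i)] [Group C] (φ : ∀ i, C →* A i)
    (ρ : ∀ i, A i →* C) (len : PushoutI φ → ℕ), (∀ (c : C) (l : List (Σ i, A i)), Red ρ l →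
      len (PushoutI.base φ c * val φ l) = l.length) → (∀ (i : ι) (k : A i) (g : PushoutI φ), len (PushoutI.of i k * g) ≤ len g + 1) →
    (∀ (c : C) (g : PushoutI φ), len (PushoutI.base φ c * g) = len g) →
    ∀ (c : C) (l : List (Σ i, A i)), Red ρ l → ∀ g : PushoutI φ,
      (sc φ c * bet φ l - MonoidAlgebra.single (PushoutI.base φ c * val φ l) (1 : ℤ) : MonoidAlgebra ℤ (PushoutI φ)).coeff g ≠ 0 →
      len g < l.length

/-- (IN) from LN, TR and UN: the intersection of the `L m` is `0`. (A nonzero element of `L m` is a finite sum of `a_i c_i bet(l_i)` with distinct `(c_i, l_i)`,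
nonzero integers `a_i` and lengths at least `m`; at `c_i val(l_i)` with `l_i` of maximal length its coefficient is `a_i`. So the support has an element
of length at least `m`.) -/
def StIN : Prop := ∀ {ι : Type u} {A : ι → Type u} {C : Type u} [∀ i, Group (A i)] [Group C] (φ : ∀ i, C →* A i)
    (ρ : ∀ i, A i →* C), (∀ i c, ρ i (φ i c) = c) → ∀ x : MonoidAlgebra ℤ (PushoutI φ),
    (∀ m : ℕ, x ∈ Lf φ ρ m) → x = 0

/-- (MX) the theorem for idempotent matrices, from TP, SP, P2, Z1, L2, IN. -/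
def StMX : Prop := ∀ {ι : Type u} {A : ι → Type u} {C : Type u} [∀ i, Group (A i)] [Group C] [Nonempty ι]
    (φ : ∀ i, C →* A i) (ρ : ∀ i, A i →* C) (π : ∀ i, PushoutI φ →* A i), (∀ i c, ρ i (φ i c) = c) →
    (∀ i a, π i (PushoutI.of i a) = a) → (∀ i j a, j ≠ i → π i (PushoutI.of j a) = φ i (ρ j a)) →
    (∀ i c, π i (PushoutI.base φ c) = φ i c) → ∀ (n : ℕ) (e : Matrix (Fin n) (Fin n) (MonoidAlgebra ℤ (PushoutI φ))),
    e * e = e → (∀ i a b, MonoidAlgebra.mapDomainRingHom ℤ (π i) (e a b) = 0) → e = 0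

end Pool.Agent.Work.MP_79a731_al.FP
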