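import Mathlib
import Pool.Agent.Work.MP_79a731_al.FP.Stmts

set_option autoImplicit false

universe u

namespace Pool.Agent.Work.MP_79a731_al.FP

open Monoid

namespace ICM

variable {ι : Type u} {A : ι → Type u} {C : Type u} [∀ i, Group (A i)] [Group C]

/-- conjugation of a letter -/
def cj (φ : ∀ i, C →* A i) (c : C) (x : Σ i, A i) : Σ i, A i :=
  ⟨x.1, φ x.1 c⁻¹ * x.2 * φ x.1 c⟩

theorem letter (φ : ∀ i, C →* A i) (c : C) (i : ι) (k : A i) :
    (sf φ i k - 1) * sc φ c = sc φ c * (sf φ i (φ i c⁻¹ * k * φ i c) - 1) := by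
  have h : PushoutI.of (φ := φ) i k * PushoutI.base φ c
      = PushoutI.base φ c * PushoutI.of (φ := φ) i (φ i c⁻¹ * k * φ i c) := by
    rw [← PushoutI.of_apply_eq_base φ i c, ← map_mul, ← map_mul]
    congr 1
    rw [map_inv]
    group
  rw [sub_mul, mul_sub, one_mul, mul_one]
  unfold sf sc
  rw [MonoidAlgebra.single_mul_single, MonoidAlgebra.single_mul_single, h]

theorem betc (φ : ∀ i, C →* A i) (c : C) (l : List (Σ i, A i)) :
    bet φ l * sc φ c = sc φ c * bet φ (l.map (cj φ c)) := by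
  induction l with
  | nil => simp [bet]
  | cons x l ih =>
    have h1 : bet φ (x :: l) = (sf φ x.1 x.2 - 1) * bet φ l := by
      simp [bet]
    have h2 : bet φ ((x :: l).map (cj φ c)) =
        (sf φ x.1 (φ x.1 c⁻¹ * x.2 * φ x.1 c) - 1) * bet φ (l.map (cj φ c)) := by
      simp [bet, cj]
    rw [h1, h2, mul_assoc, ih, ← mul_assoc, letter, mul_assoc]

end ICM

open ICM in
theorem pr_CM : StCM.{u} := by
  intro ι A C _ _ φ ρ hρ c l hl
  refine ⟨l.map (cj φ c), ⟨?_, ?_⟩, List.length_map _, betc φ c l⟩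
  · intro y hy
    obtain ⟨x, hx, rfl⟩ := List.mem_map.mp hy
    obtain ⟨h1, h2⟩ := hl.1 x hx
    constructor
    · show ρ x.1 (φ x.1 c⁻¹ * x.2 * φ x.1 c) = 1
      rw [map_mul, map_mul, hρ, hρ, h1, mul_one, inv_mul_cancel]
    · show φ x.1 c⁻¹ * x.2 * φ x.1 c ≠ 1
      intro h
      apply h2
      rw [map_inv] at h
      have h3 : x.2 = φ x.1 c * ((φ x.1 c)⁻¹ * x.2 * φ x.1 c) * (φ x.1 c)⁻¹ := by group
      rw [h3, h]
      group
  · rw [List.isChain_map]
    exact hl.2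

end Pool.Agent.Work.MP_79a731_al.FP
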