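import Mathlib
import Pool.Agent.Work.MP_79a731_al.FP.Stmts

/-!
Block FP of MP_79a731_al, item IN: the intersection of the `L m` is `0`.
-/

set_option autoImplicit false

universe u

namespace Pool.Agent.Work.MP_79a731_al.FP

open Monoid

namespace IIN

variable {ι : Type u} {A : ι → Type u} {C : Type u} [∀ i, Group (A i)] [Group C]

/-- the spanning elements -/
noncomputable def bb (φ : ∀ i, C →* A i) (p : C × List (Σ i, A i)) : MonoidAlgebra ℤ (PushoutI φ) :=
  sc φ p.1 * bet φ p.2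

theorem expand (φ : ∀ i, C →* A i) (ρ : ∀ i, A i →* C) (m : ℕ) (x : MonoidAlgebra ℤ (PushoutI φ))
    (hx : x ∈ Lf φ ρ m) : ∃ a : (C × List (Σ i, A i)) →₀ ℤ,
      (∀ p ∈ a.support, Red ρ p.2 ∧ m ≤ p.2.length) ∧ x = Finsupp.linearCombination ℤ (bb φ) a := by
  classical
  unfold Lf at hx
  induction hx using AddSubgroup.closure_induction with
  | mem x hx =>
    obtain ⟨c, l, h1, h2, h3⟩ := hx
    refine ⟨Finsupp.single (c, l) 1, ?_, ?_⟩
    · intro p hp
      have h4 := Finsupp.support_single_subset hp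
      rw [Finset.mem_singleton] at h4
      subst h4
      exact ⟨h1, h2⟩
    · rw [Finsupp.linearCombination_single, one_smul, h3]
      rfl
  | zero => exact ⟨0, by simp, by rw [map_zero]⟩
  | add x y _ _ ihx ihy =>
    obtain ⟨a, ha, hxa⟩ := ihx
    obtain ⟨a', ha', hxa'⟩ := ihy
    refine ⟨a + a', ?_, by rw [map_add, hxa, hxa']⟩
    intro p hp
    rcases Finset.mem_union.1 (Finsupp.support_add hp) with h | h
    · exact ha p h
    · exact ha' p h
  | neg x _ ihx =>
    obtain ⟨a, ha, hxa⟩ := ihx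
    refine ⟨-a, ?_, by rw [map_neg, hxa]⟩
    intro p hp
    rw [Finsupp.support_neg] at hp
    exact ha p hp

end IIN

open IIN in
theorem pr_IN (h1 : StLN.{u}) (h2 : StTR.{u}) (h3 : StUN.{u}) : StIN.{u} := by
  classical
  intro ι A C _ _ φ ρ hρ x hx
  obtain ⟨len, hl1, hl2, hl3⟩ := h1 φ ρ hρ
  by_contra hne
  obtain ⟨a, ha, hxa⟩ := expand φ ρ (x.coeff.support.sup len + 1) x (hx _)
  have ha0 : a ≠ 0 := by
    rintro rfl
    rw [map_zero] at hxa
    exact hne hxa
  obtain ⟨p0, hp0, hmax⟩ := Finset.exists_max_image a.support (fun p => p.2.length)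
    (Finsupp.support_nonempty_iff.2 ha0)
  have hlen0 : len (PushoutI.base φ p0.1 * val φ p0.2) = p0.2.length := hl1 _ _ (ha p0 hp0).1
  have hcoeff : ∀ p ∈ a.support, p ≠ p0 →
      (bb φ p).coeff (PushoutI.base φ p0.1 * val φ p0.2) = 0 := by
    intro p hp hpne
    by_contra hcon
    have h4 := h2 φ ρ len hl1 hl2 hl3 p.1 p.2 (ha p hp).1 (PushoutI.base φ p0.1 * val φ p0.2)
    have h5 : (sc φ p.1 * bet φ p.2 - MonoidAlgebra.single (PushoutI.base φ p.1 * val φ p.2) (1 : ℤ) :
        MonoidAlgebra ℤ (PushoutI φ)).coeff (PushoutI.base φ p0.1 * val φ p0.2) =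
        (bb φ p).coeff (PushoutI.base φ p0.1 * val φ p0.2) := by
      rw [MonoidAlgebra.coeff_sub, Finsupp.sub_apply, MonoidAlgebra.coeff_single,
        Finsupp.single_apply, if_neg, sub_zero]
      · rfl
      · intro h6
        obtain ⟨h7, h8⟩ := h3 φ ρ hρ p.1 p0.1 p.2 p0.2 (ha p hp).1 (ha p0 hp0).1 h6
        exact hpne (Prod.ext h7 h8)
    rw [h5] at h4
    have h9 := h4 hcon
    rw [hlen0] at h9
    have h10 := hmax p hp
    omega
  have hcoeff0 : (bb φ p0).coeff (PushoutI.base φ p0.1 * val φ p0.2) = 1 := by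
    by_contra hcon
    have h4 := h2 φ ρ len hl1 hl2 hl3 p0.1 p0.2 (ha p0 hp0).1 (PushoutI.base φ p0.1 * val φ p0.2)
    have h5 : (sc φ p0.1 * bet φ p0.2 -
        MonoidAlgebra.single (PushoutI.base φ p0.1 * val φ p0.2) (1 : ℤ) :
        MonoidAlgebra ℤ (PushoutI φ)).coeff (PushoutI.base φ p0.1 * val φ p0.2) ≠ 0 := by
      rw [MonoidAlgebra.coeff_sub, Finsupp.sub_apply, MonoidAlgebra.coeff_single,
        Finsupp.single_eq_same]
      exact sub_ne_zero.2 hcon
    have h9 := h4 h5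
    rw [hlen0] at h9
    omega
  have hval : x.coeff (PushoutI.base φ p0.1 * val φ p0.2) = a p0 := by
    conv_lhs => rw [hxa]
    rw [Finsupp.linearCombination_apply, Finsupp.sum, MonoidAlgebra.coeff_sum,
      Finsupp.finsetSum_apply, Finset.sum_eq_single p0]
    · rw [MonoidAlgebra.coeff_smul, Finsupp.smul_apply, hcoeff0, smul_eq_mul, mul_one]
    · intro p hp hpne
      rw [MonoidAlgebra.coeff_smul, Finsupp.smul_apply, hcoeff p hp hpne, smul_zero]
    · intro h
      exact absurd hp0 h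
  have hmem : PushoutI.base φ p0.1 * val φ p0.2 ∈ x.coeff.support := by
    rw [Finsupp.mem_support_iff, hval]
    exact Finsupp.mem_support_iff.1 hp0
  have hle := Finset.le_sup (f := len) hmem
  rw [hlen0] at hle
  have := (ha p0 hp0).2
  omega

end Pool.Agent.Work.MP_79a731_al.FP
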