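import Mathlib
import Pool.Agent.Work.MP_79a731_al.FP.Stmts

/-!
Item K1 of block FP (MP_79a731_al): left multiplication by `k - 1`.
-/

set_option autoImplicit false

universe u

namespace Pool.Agent.Work.MP_79a731_al.FP

open Monoid

namespace IK1

variable {ι : Type u} {A : ι → Type u} {C : Type u} [∀ i, Group (A i)] [Group C]

theorem sf_one (φ : ∀ i, C →* A i) (i : ι) : sf φ i 1 = 1 := by
  unfold sf
  rw [map_one]
  rfl

theorem sf_mul (φ : ∀ i, C →* A i) (i : ι) (a b : A i) : sf φ i (a * b) = sf φ i a * sf φ i b := by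
  unfold sf
  rw [map_mul, MonoidAlgebra.single_mul_single, mul_one]

theorem bet_cons (φ : ∀ i, C →* A i) (x : Σ i, A i) (l : List (Σ i, A i)) :
    bet φ (x :: l) = (sf φ x.1 x.2 - 1) * bet φ l := by
  unfold bet
  rw [List.map_cons, List.prod_cons]

theorem red_cons (ρ : ∀ i, A i →* C) (x : Σ i, A i) (t : List (Σ i, A i)) :
    Red ρ (x :: t) ↔ (ρ x.1 x.2 = 1 ∧ x.2 ≠ 1) ∧ (∀ y ∈ t.head?, x.1 ≠ y.1) ∧ Red ρ t := by
  unfold Red
  rw [List.isChain_cons, List.forall_mem_cons]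
  tauto

/-- one letter in front of a word which does not begin with the factor `i` -/
theorem one (φ : ∀ i, C →* A i) (ρ : ∀ i, A i →* C) (i : ι) (x : A i) (t : List (Σ i, A i)) (m : ℕ)
    (hx : ρ i x = 1) (hh : ∀ y ∈ t.head?, i ≠ y.1) (ht : Red ρ t) (hm : m ≤ t.length + 1) :
    (sf φ i x - 1) * bet φ t ∈ Li φ ρ i m := by
  by_cases h1 : x = 1
  · rw [h1, sf_one, sub_self, zero_mul]
    exact zero_mem _
  · refine AddSubgroup.subset_closure ⟨x, t, ?_, hm, ?_⟩
    · exact (red_cons ρ ⟨i, x⟩ t).2 ⟨⟨hx, h1⟩, hh, ht⟩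
    · exact (bet_cons φ ⟨i, x⟩ t).symm

end IK1

/-- item K1 -/
theorem pr_K1 : StK1.{u} := by
  intro ι A C _ _ φ ρ i k l m hk hl hm
  cases l with
  | nil =>
    refine IK1.one φ ρ i k [] m hk ?_ hl (by omega)
    intro y hy
    simp at hy
  | cons y t =>
    obtain ⟨j, k'⟩ := y
    obtain ⟨⟨h1, h2⟩, h3, h4⟩ := (IK1.red_cons ρ ⟨j, k'⟩ t).1 hl
    rw [List.length_cons] at hm
    by_cases hij : i = j
    · subst hij
      rw [IK1.bet_cons]
      have e : (sf φ i k - 1) * ((sf φ i k' - 1) * bet φ t) =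
          (sf φ i (k * k') - 1) * bet φ t - (sf φ i k - 1) * bet φ t -
            (sf φ i k' - 1) * bet φ t := by
        rw [IK1.sf_mul]
        noncomm_ring
      show (sf φ i k - 1) * ((sf φ i k' - 1) * bet φ t) ∈ _
      rw [e]
      refine sub_mem (sub_mem ?_ ?_) ?_
      · exact IK1.one φ ρ i (k * k') t m (by rw [map_mul, hk, h1, one_mul]) h3 h4 hm
      · exact IK1.one φ ρ i k t m hk h3 h4 hm
      · exact IK1.one φ ρ i k' t m h1 h3 h4 hm
    · refine IK1.one φ ρ i k (⟨j, k'⟩ :: t) m hk ?_ hl (by rw [List.length_cons]; omega)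
      intro y hy
      rw [List.head?_cons, Option.mem_some_iff] at hy
      rw [← hy]
      exact hij

end Pool.Agent.Work.MP_79a731_al.FP
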