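import Mathlib
import Pool.Agent.Work.MP_79a731_al.FP.Stmts

/-!
Block FP of MP_79a731_al, item K2: left multiplication by `k - 1` gains a letter.
-/

set_option autoImplicit false

namespace Pool.Agent.Work.MP_79a731_al.FP

open Monoid

universe u

/-- Item K2. -/
theorem pr_K2 : StK2.{u} := by
  intro ι A C _ _ φ ρ i j k m x hij hk hx
  unfold Li at hx
  induction hx using AddSubgroup.closure_induction with
  | mem x hx =>
    obtain ⟨k', l, hR, hm, rfl⟩ := hx
    by_cases h1 : k = 1
    · have h2 : sf φ i k = 1 := by
        rw [h1]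
        unfold sf
        rw [map_one]
        rfl
      rw [h2, sub_self, zero_mul]
      exact (Li φ ρ i (m + 1)).zero_mem
    · apply AddSubgroup.subset_closure
      refine ⟨k, ⟨j, k'⟩ :: l, ⟨?_, ?_⟩, ?_, ?_⟩
      · intro y hy
        rcases List.mem_cons.mp hy with h | h
        · subst h
          exact ⟨hk, h1⟩
        · exact hR.1 y h
      · exact List.isChain_cons_cons.mpr ⟨hij, hR.2⟩
      · simp only [List.length_cons]
        omega
      · unfold bet
        simp only [List.map_cons, List.prod_cons]
  | zero =>
    rw [mul_zero]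
    exact (Li φ ρ i (m + 1)).zero_mem
  | add x y _ _ hx hy =>
    rw [mul_add]
    exact (Li φ ρ i (m + 1)).add_mem hx hy
  | neg x _ hx =>
    rw [mul_neg]
    exact (Li φ ρ i (m + 1)).neg_mem hx

end Pool.Agent.Work.MP_79a731_al.FP
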