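import Mathlib
import Pool.Agent.Work.MP_79a731_al.FP.Stmts

/-!
# `L 2 * L m` lies in `L (m + 1)`
-/

set_option autoImplicit false

namespace Pool.Agent.Work.MP_79a731_al.FP

open Monoid

universe u

namespace IL2

variable {ι : Type u} {A : ι → Type u} {C : Type u} [∀ i, Group (A i)] [Group C]

/-- Products of elements of `C`. -/
theorem sc_mul (φ : ∀ i, C →* A i) (c c' : C) : sc φ c * sc φ c' = sc φ (c * c') := by
  unfold sc
  rw [MonoidAlgebra.single_mul_single, mul_one, map_mul]

/-- From `Lb` to `Lf`. -/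
theorem Lb_Lf (φ : ∀ i, C →* A i) (ρ : ∀ i, A i →* C) (m : ℕ) (d : C)
    (z : MonoidAlgebra ℤ (PushoutI φ)) (hz : z ∈ Lb φ ρ m) : sc φ d * z ∈ Lf φ ρ m := by
  unfold Lb at hz
  induction hz using AddSubgroup.closure_induction with
  | mem x hx =>
    obtain ⟨l, h1, h2, rfl⟩ := hx
    exact AddSubgroup.subset_closure ⟨d, l, h1, h2, rfl⟩
  | zero =>
    rw [mul_zero]
    exact AddSubgroup.zero_mem _
  | add x y _ _ hx hy =>
    rw [mul_add]
    exact AddSubgroup.add_mem _ hx hy
  | neg x _ hx =>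
    rw [mul_neg]
    exact AddSubgroup.neg_mem _ hx

end IL2

open IL2 in
theorem pr_L2 (h1 : StML.{u}) (h2 : StCM.{u}) : StL2.{u} := by
  intro ι A C _ _ φ ρ hρ m x y hx hy
  unfold Lf at hx
  induction hx using AddSubgroup.closure_induction with
  | mem x hx =>
    obtain ⟨c, l, hl, hl2, rfl⟩ := hx
    unfold Lf at hy
    induction hy using AddSubgroup.closure_induction with
    | mem y hy =>
      obtain ⟨c', l', hl', hlm, rfl⟩ := hy
      obtain ⟨l'', h3, h4, h5⟩ := h2 φ ρ hρ c' l hl
      have h6 := h1 φ ρ l'' l' m h3 (by omega) hl' hlm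
      have h7 : sc φ c * bet φ l * (sc φ c' * bet φ l') =
          sc φ (c * c') * (bet φ l'' * bet φ l') := by
        rw [← sc_mul, mul_assoc, ← mul_assoc (bet φ l), h5]
        simp only [mul_assoc]
      rw [h7]
      exact Lb_Lf φ ρ _ _ _ h6
    | zero =>
      rw [mul_zero]
      exact AddSubgroup.zero_mem _
    | add y z _ _ hy hz =>
      rw [mul_add]
      exact AddSubgroup.add_mem _ hy hz
    | neg y _ hy =>
      rw [mul_neg]
      exact AddSubgroup.neg_mem _ hy
  | zero =>
    rw [zero_mul]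
    exact AddSubgroup.zero_mem _
  | add x z _ _ hx hz =>
    rw [add_mul]
    exact AddSubgroup.add_mem _ hx hz
  | neg x _ hx =>
    rw [neg_mul]
    exact AddSubgroup.neg_mem _ hx

end Pool.Agent.Work.MP_79a731_al.FP
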