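import Mathlib
import Pool.Agent.Work.MP_79a731_al.FP.Stmts

/-!
Item LN of block FP: a length function.
-/

set_option autoImplicit false

namespace Pool.Agent.Work.MP_79a731_al.FP

open Monoid

universe u

namespace ILN

variable {ι : Type u} {A : ι → Type u} {C : Type u} [∀ i, Group (A i)] [Group C]

theorem red_nil (ρ : ∀ i, A i →* C) : Red ρ [] :=
  ⟨by simp, List.isChain_nil⟩

theorem red_tail (ρ : ∀ i, A i →* C) {x : Σ i, A i} {l : List (Σ i, A i)} (h : Red ρ (x :: l)) : Red ρ l := by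
  refine ⟨fun y hy => h.1 y (List.mem_cons_of_mem _ hy), ?_⟩
  rcases l with _ | ⟨y, t⟩
  · exact List.isChain_nil
  · exact (List.isChain_cons_cons.1 h.2).2

theorem red_single (ρ : ∀ i, A i →* C) {i : ι} {k : A i} (h : ρ i k = 1) (h' : k ≠ 1) :
    Red ρ [⟨i, k⟩] := by
  refine ⟨?_, List.isChain_singleton _⟩
  intro x hx
  rw [List.mem_singleton] at hx
  subst hx
  exact ⟨h, h'⟩

theorem red_cons (ρ : ∀ i, A i →* C) {i j : ι} {k : A i} {b : A j} {t : List (Σ i, A i)} (h : ρ i k = 1)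
    (h' : k ≠ 1) (hij : i ≠ j) (hr : Red ρ (⟨j, b⟩ :: t)) : Red ρ (⟨i, k⟩ :: ⟨j, b⟩ :: t) := by
  refine ⟨?_, List.isChain_cons_cons.2 ⟨hij, hr.2⟩⟩
  intro x hx
  rcases List.mem_cons.1 hx with hx | hx
  · subst hx
    exact ⟨h, h'⟩
  · exact hr.1 x hx

theorem red_replace (ρ : ∀ i, A i →* C) {i : ι} {k b : A i} {t : List (Σ i, A i)} (h : ρ i k = 1)
    (h' : k ≠ 1) (hr : Red ρ (⟨i, b⟩ :: t)) : Red ρ (⟨i, k⟩ :: t) := by
  rcases t with _ | ⟨y, s⟩
  · exact red_single ρ h h'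
  · refine ⟨?_, List.isChain_cons_cons.2 ⟨(List.isChain_cons_cons.1 hr.2).1, (List.isChain_cons_cons.1 hr.2).2⟩⟩
    intro x hx
    rcases List.mem_cons.1 hx with hx | hx
    · subst hx
      exact ⟨h, h'⟩
    · exact hr.1 x (List.mem_cons_of_mem _ hx)

theorem val_cons (φ : ∀ i, C →* A i) (x : Σ i, A i) (l : List (Σ i, A i)) :
    val φ (x :: l) = PushoutI.of (φ := φ) x.1 x.2 * val φ l := by
  unfold val
  rw [List.map_cons, List.prod_cons]

theorem step (φ : ∀ i, C →* A i) (ρ : ∀ i, A i →* C) (i : ι) (k : A i) (hk : ρ i k = 1)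
    (l : List (Σ i, A i)) (hl : Red ρ l) :
    ∃ l' : List (Σ i, A i), Red ρ l' ∧ l'.length ≤ l.length + 1 ∧
      PushoutI.of (φ := φ) i k * val φ l = val φ l' := by
  by_cases h1 : k = 1
  · subst h1
    exact ⟨l, hl, Nat.le_succ _, by rw [map_one, one_mul]⟩
  · rcases l with _ | ⟨⟨j, b⟩, t⟩
    · exact ⟨[⟨i, k⟩], red_single ρ hk h1, by simp, by rw [val_cons]⟩
    · by_cases hij : i = j
      · subst hij
        have hb : ρ i b = 1 := (hl.1 ⟨i, b⟩ List.mem_cons_self).1
        have hkb : ρ i (k * b) = 1 := by rw [map_mul, hk, hb, one_mul]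
        by_cases h2 : k * b = 1
        · refine ⟨t, red_tail ρ hl, by simp only [List.length_cons]; omega, ?_⟩
          rw [val_cons, ← mul_assoc, ← map_mul]
          change PushoutI.of (φ := φ) i (k * b) * val φ t = val φ t
          rw [h2, map_one, one_mul]
        · refine ⟨⟨i, k * b⟩ :: t, red_replace ρ hkb h2 hl, by simp only [List.length_cons]; omega, ?_⟩
          rw [val_cons, val_cons, ← mul_assoc, ← map_mul]
      · exact ⟨⟨i, k⟩ :: ⟨j, b⟩ :: t, red_cons ρ hk h1 hij hl, by simp, by rw [val_cons φ ⟨i, k⟩]⟩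

end ILN

theorem pr_LN (h1 : StEX.{u}) (h2 : StUN.{u}) : StLN.{u} := by
  intro ι A C _ _ φ ρ hρ
  classical
  choose cc ll hred hg using h1 φ ρ hρ
  have key : ∀ (c : C) (l : List (Σ i, A i)), Red ρ l →
      (ll (PushoutI.base φ c * val φ l)).length = l.length := by
    intro c l hl
    have h := hg (PushoutI.base φ c * val φ l)
    have := h2 φ ρ hρ _ _ _ _ hl (hred (PushoutI.base φ c * val φ l)) h
    rw [← this.2]
  refine ⟨fun g => (ll g).length, key, ?_, ?_⟩
  · intro i k g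
    change (ll (PushoutI.of i k * g)).length ≤ (ll g).length + 1
    obtain ⟨c, l, hl, hgl⟩ : ∃ (c : C) (l : List (Σ i, A i)), Red ρ l ∧ g = PushoutI.base φ c * val φ l :=
      ⟨cc g, ll g, hred g, hg g⟩
    have hlen : (ll g).length = l.length := by rw [hgl]; exact key c l hl
    rw [hlen]
    have e1 : PushoutI.of (φ := φ) i k * g =
        PushoutI.base φ (ρ i (k * φ i c)) *
          (PushoutI.of (φ := φ) i ((φ i (ρ i (k * φ i c)))⁻¹ * (k * φ i c)) * val φ l) := by
      rw [hgl, ← mul_assoc, ← mul_assoc, ← PushoutI.of_apply_eq_base φ i c, ← map_mul,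
        ← PushoutI.of_apply_eq_base φ i (ρ i (k * φ i c)), ← map_mul, mul_inv_cancel_left]
    have hker : ρ i ((φ i (ρ i (k * φ i c)))⁻¹ * (k * φ i c)) = 1 := by
      rw [map_mul, map_inv, hρ, inv_mul_cancel]
    obtain ⟨l', hl', hle, he⟩ := ILN.step φ ρ i _ hker l hl
    rw [e1, he, key _ l' hl']
    exact hle
  · intro c g
    change (ll (PushoutI.base φ c * g)).length = (ll g).length
    conv_lhs => rw [hg g, ← mul_assoc, ← map_mul]
    exact key _ _ (hred g)

end Pool.Agent.Work.MP_79a731_al.FP
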