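import Mathlib
import Pool.Agent.Work.MP_79a731_al.FP.Stmts

/-!
Block FP of MP_79a731_al, item ML: a reduced product with at least two letters raises the length.
-/

set_option autoImplicit false

namespace Pool.Agent.Work.MP_79a731_al.FP

open Monoid

universe u

namespace IML

variable {ι : Type u} {A : ι → Type u} {C : Type u} [∀ i, Group (A i)] [Group C]

theorem red_tail (ρ : ∀ i, A i →* C) {x : Σ i, A i} {l : List (Σ i, A i)} (h : Red ρ (x :: l)) : Red ρ l := by
  refine ⟨fun y hy => h.1 y (List.mem_cons_of_mem _ hy), ?_⟩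
  rcases l with _ | ⟨y, t⟩
  · exact List.isChain_nil
  · exact (List.isChain_cons_cons.1 h.2).2

theorem bet_cons (φ : ∀ i, C →* A i) (x : Σ i, A i) (l : List (Σ i, A i)) :
    bet φ (x :: l) = (sf φ x.1 x.2 - 1) * bet φ l := by
  unfold bet
  rw [List.map_cons, List.prod_cons]

theorem aux (h1 : StK1.{u}) (h2 : StK2.{u}) (φ : ∀ i, C →* A i) (ρ : ∀ i, A i →* C)
    (l' : List (Σ i, A i)) (m : ℕ) (hl' : Red ρ l') (hm : m ≤ l'.length) (t : List (Σ i, A i)) :
    ∀ x : Σ i, A i, Red ρ (x :: t) → bet φ (x :: t) * bet φ l' ∈ Li φ ρ x.1 (m + t.length) := by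
  induction t with
  | nil =>
    intro x hx
    have e1 : bet φ [x] = sf φ x.1 x.2 - 1 := by
      unfold bet
      simp
    rw [e1, List.length_nil, Nat.add_zero]
    exact h1 φ ρ x.1 x.2 l' m (hx.1 x List.mem_cons_self).1 hl' hm
  | cons y s ih =>
    intro x hx
    have h3 := ih y (red_tail ρ hx)
    have h4 : x.1 ≠ y.1 := (List.isChain_cons_cons.1 hx.2).1
    have h5 := h2 φ ρ x.1 y.1 x.2 (m + s.length) _ h4 (hx.1 x List.mem_cons_self).1 h3
    rw [bet_cons φ x (y :: s), mul_assoc, List.length_cons, ← Nat.add_assoc]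
    exact h5

end IML

/-- Item ML. -/
theorem pr_ML (h1 : StK1.{u}) (h2 : StK2.{u}) : StML.{u} := by
  intro ι A C _ _ φ ρ l l' m hl h2l hl' hm
  rcases l with _ | ⟨x, t⟩
  · simp at h2l
  · have h3 := IML.aux h1 h2 φ ρ l' m hl' hm t x hl
    have h4 : 1 ≤ t.length := by
      rw [List.length_cons] at h2l
      omega
    have h5 : Li φ ρ x.1 (m + t.length) ≤ Lb φ ρ (m + 1) := by
      unfold Li
      rw [AddSubgroup.closure_le]
      rintro z ⟨k, s, hR, hk, rfl⟩
      apply AddSubgroup.subset_closure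
      refine ⟨⟨x.1, k⟩ :: s, hR, ?_, rfl⟩
      rw [List.length_cons]
      omega
    exact h5 h3

end Pool.Agent.Work.MP_79a731_al.FP
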