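import Mathlib
import Pool.Agent.Work.MP_79a731_al.FP.Stmts

/-!
Base change of projective modules of any rank along a homomorphism of groups, and the criterion for a given section.
-/

set_option autoImplicit false

namespace Pool.Agent.Work.MP_79a731_al.FP

open Monoid

universe u v w

/-- generated by the `(g - 1) m`, `g` in `N` -/
def Gen {G : Type u} [Group G] (N : Subgroup G) (M : Type v) [AddCommGroup M] [Module (MonoidAlgebra ℤ G) M] : Prop :=
  Submodule.span (MonoidAlgebra ℤ G) {x : M | ∃ g ∈ N, ∃ m : M,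
    x = (MonoidAlgebra.single g (1 : ℤ) - 1 : MonoidAlgebra ℤ G) • m} = ⊤

theorem base_change {G : Type u} {H : Type w} [Group G] [Group H] (f : G →* H) (M : Type v) [AddCommGroup M]
    [Module (MonoidAlgebra ℤ G) M] (s : M →ₗ[MonoidAlgebra ℤ G] (M →₀ MonoidAlgebra ℤ G))
    (hs : ∀ x : M, Finsupp.linearCombination (MonoidAlgebra ℤ G) id (s x) = x) :
    ∃ P : Submodule (MonoidAlgebra ℤ H) (M →₀ MonoidAlgebra ℤ H),
      Module.Projective (MonoidAlgebra ℤ H) P ∧
      (Module.Finite (MonoidAlgebra ℤ G) M → Module.Finite (MonoidAlgebra ℤ H) P) ∧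
      (Gen (⊤ : Subgroup G) M → Gen (⊤ : Subgroup H) P) ∧
      (Subsingleton P → ∀ x y : M, MonoidAlgebra.mapDomainRingHom ℤ f ((s x) y) = 0) := by
  classical
  let F := MonoidAlgebra.mapDomainRingHom ℤ f
  let q : M → (M →₀ MonoidAlgebra ℤ H) := fun x => Finsupp.mapRange F (map_zero F) (s x)
  have hq : ∀ x y, q x y = F ((s x) y) := fun x y => Finsupp.mapRange_apply
  have hqadd : ∀ x y, q (x + y) = q x + q y := by
    intro x y
    apply Finsupp.ext
    intro z
    rw [Finsupp.add_apply, hq, hq, hq, map_add, Finsupp.add_apply, map_add]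
  have hqzero : q 0 = 0 := by
    apply Finsupp.ext
    intro z
    rw [hq, map_zero, Finsupp.zero_apply, map_zero, Finsupp.zero_apply]
  have hqsmul : ∀ (r : MonoidAlgebra ℤ G) (x : M), q (r • x) = F r • q x := by
    intro r x
    apply Finsupp.ext
    intro z
    rw [Finsupp.smul_apply, hq, hq, map_smul, Finsupp.smul_apply, smul_eq_mul, map_mul, smul_eq_mul]
  have hqsum : ∀ (t : Finset M) (g : M → M), q (∑ z ∈ t, g z) = ∑ z ∈ t, q (g z) := by
    intro t g
    induction t using Finset.induction_on with
    | empty => rw [Finset.sum_empty, Finset.sum_empty, hqzero]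
    | insert a t ha ih => rw [Finset.sum_insert ha, Finset.sum_insert ha, hqadd, ih]
  -- the idempotent
  let E : (M →₀ MonoidAlgebra ℤ H) →ₗ[MonoidAlgebra ℤ H] (M →₀ MonoidAlgebra ℤ H) :=
    Finsupp.linearCombination (MonoidAlgebra ℤ H) q
  have hEq : ∀ x : M, E (q x) = q x := by
    intro x
    have h1 : E (q x) = ∑ z ∈ (s x).support, F ((s x) z) • q z := by
      change Finsupp.linearCombination (MonoidAlgebra ℤ H) q (q x) = _
      rw [Finsupp.linearCombination_apply, Finsupp.sum]
      have h2 : (q x).support ⊆ (s x).support := Finsupp.support_mapRange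
      refine (Finset.sum_subset h2 ?_).trans ?_
      · intro z _ hz
        rw [Finsupp.notMem_support_iff.mp hz, zero_smul]
      · refine Finset.sum_congr rfl fun z _ => ?_
        rw [hq]
    rw [h1]
    conv_rhs => rw [← hs x]
    rw [Finsupp.linearCombination_apply, Finsupp.sum, hqsum]
    refine Finset.sum_congr rfl fun z _ => ?_
    rw [hqsmul]
    rfl
  have hEE : ∀ a, E (E a) = E a := by
    intro a
    induction a using Finsupp.induction_linear with
    | zero => rw [map_zero, map_zero]
    | add a b ha hb => rw [map_add, map_add, ha, hb]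
    | single x r =>
      have h1 : E (Finsupp.single x r) = r • q x := Finsupp.linearCombination_single _ _ _
      rw [h1, map_smul, hEq]
  have hEP : ∀ x ∈ LinearMap.range E, E x = x := by
    rintro _ ⟨y, rfl⟩
    exact hEE y
  have hqr : ∀ x, q x ∈ LinearMap.range E := fun x => ⟨q x, hEq x⟩
  -- the range is spanned by the values of q
  have hspan : ∀ (N : Submodule (MonoidAlgebra ℤ H) (LinearMap.range E)),
      (∀ x, (⟨q x, hqr x⟩ : LinearMap.range E) ∈ N) → N = ⊤ := by
    intro N hN
    rw [eq_top_iff]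
    rintro ⟨_, a, rfl⟩ _
    induction a using Finsupp.induction_linear with
    | zero =>
      have : (⟨E 0, ⟨0, rfl⟩⟩ : LinearMap.range E) = 0 := Subtype.ext (map_zero E)
      rw [this]
      exact N.zero_mem
    | add a b ha hb =>
      have : (⟨E (a + b), ⟨a + b, rfl⟩⟩ : LinearMap.range E) = ⟨E a, ⟨a, rfl⟩⟩ + ⟨E b, ⟨b, rfl⟩⟩ :=
        Subtype.ext (map_add E a b)
      rw [this]
      exact N.add_mem (ha Submodule.mem_top) (hb Submodule.mem_top)
    | single x r =>
      have : (⟨E (Finsupp.single x r), ⟨_, rfl⟩⟩ : LinearMap.range E) = r • ⟨q x, hqr x⟩ :=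
        Subtype.ext (Finsupp.linearCombination_single _ _ _)
      rw [this]
      exact N.smul_mem _ (hN x)
  refine ⟨LinearMap.range E, ?_, ?_, ?_, ?_⟩
  · refine Module.Projective.of_split (LinearMap.range E).subtype E.rangeRestrict ?_
    apply LinearMap.ext
    intro x
    exact Subtype.ext (hEP x x.2)
  · rintro ⟨S, hS⟩
    refine ⟨S.image fun x => ⟨q x, hqr x⟩, hspan _ fun x => ?_⟩
    have hx : x ∈ Submodule.span (MonoidAlgebra ℤ G) (S : Set M) := by rw [hS]; exact Submodule.mem_top
    induction hx using Submodule.span_induction with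
    | mem x hx => exact Submodule.subset_span (Finset.mem_coe.mpr (Finset.mem_image_of_mem _ hx))
    | zero =>
      have : (⟨q 0, hqr 0⟩ : LinearMap.range E) = 0 := Subtype.ext hqzero
      rw [this]
      exact Submodule.zero_mem _
    | add x y _ _ hx hy =>
      have : (⟨q (x + y), hqr _⟩ : LinearMap.range E) = ⟨q x, hqr x⟩ + ⟨q y, hqr y⟩ := Subtype.ext (hqadd x y)
      rw [this]
      exact Submodule.add_mem _ hx hy
    | smul r x _ hx =>
      have : (⟨q (r • x), hqr _⟩ : LinearMap.range E) = F r • ⟨q x, hqr x⟩ := Subtype.ext (hqsmul r x)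
      rw [this]
      exact Submodule.smul_mem _ _ hx
  · intro hM
    refine hspan _ fun x => ?_
    have hx : x ∈ Submodule.span (MonoidAlgebra ℤ G) {x : M | ∃ g ∈ (⊤ : Subgroup G), ∃ m : M,
        x = (MonoidAlgebra.single g (1 : ℤ) - 1 : MonoidAlgebra ℤ G) • m} := by
      have h1 := hM
      unfold Gen at h1
      rw [h1]
      exact Submodule.mem_top
    induction hx using Submodule.span_induction with
    | mem x hx =>
      obtain ⟨g, _, m, rfl⟩ := hx
      refine Submodule.subset_span ⟨f g, Subgroup.mem_top _, ⟨q m, hqr m⟩, ?_⟩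
      apply Subtype.ext
      change q _ = (MonoidAlgebra.single (f g) (1 : ℤ) - 1 : MonoidAlgebra ℤ H) • q m
      rw [hqsmul, map_sub, map_one]
      have h1 : F (MonoidAlgebra.single g (1 : ℤ)) = MonoidAlgebra.single (f g) 1 := by
        change MonoidAlgebra.mapDomainRingHom ℤ f _ = _
        rw [MonoidAlgebra.mapDomainRingHom_apply, MonoidAlgebra.mapDomain_single]
      rw [h1]
    | zero =>
      have : (⟨q 0, hqr 0⟩ : LinearMap.range E) = 0 := Subtype.ext hqzero
      rw [this]
      exact Submodule.zero_mem _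
    | add x y _ _ hx hy =>
      have : (⟨q (x + y), hqr _⟩ : LinearMap.range E) = ⟨q x, hqr x⟩ + ⟨q y, hqr y⟩ := Subtype.ext (hqadd x y)
      rw [this]
      exact Submodule.add_mem _ hx hy
    | smul r x _ hx =>
      have : (⟨q (r • x), hqr _⟩ : LinearMap.range E) = F r • ⟨q x, hqr x⟩ := Subtype.ext (hqsmul r x)
      rw [this]
      exact Submodule.smul_mem _ _ hx
  · intro hP x y
    have h1 : (⟨q x, hqr x⟩ : LinearMap.range E) = 0 := Subsingleton.elim _ _
    have h2 : q x = 0 := congrArg Subtype.val h1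
    have h3 : q x y = 0 := by rw [h2, Finsupp.zero_apply]
    rw [hq] at h3
    exact h3

end Pool.Agent.Work.MP_79a731_al.FP
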