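import Mathlib
import Pool.Agent.Work.MP_79a731_al.FP.BC

/-!
(PR): projective modules of any rank which vanish under all retractions (helper39's form).
-/

set_option autoImplicit false

namespace Pool.Agent.Work.MP_79a731_al.FP

open Monoid

universe u v

/-- (PS) a section of a projective module whose coordinates vanish under all retractions: the module is zero. -/
def StPS : Prop := ∀ {ι : Type u} {A : ι → Type u} {C : Type u} [∀ i, Group (A i)] [Group C] [Nonempty ι]
    (φ : ∀ i, C →* A i) (ρ : ∀ i, A i →* C) (π : ∀ i, PushoutI φ →* A i), (∀ i c, ρ i (φ i c) = c) →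
    (∀ i a, π i (PushoutI.of i a) = a) → (∀ i j a, j ≠ i → π i (PushoutI.of j a) = φ i (ρ j a)) →
    (∀ i c, π i (PushoutI.base φ c) = φ i c) → ∀ (M : Type v) [AddCommGroup M] [Module (MonoidAlgebra ℤ (PushoutI φ)) M]
    (s : M →ₗ[MonoidAlgebra ℤ (PushoutI φ)] (M →₀ MonoidAlgebra ℤ (PushoutI φ))),
    (∀ x : M, Finsupp.linearCombination (MonoidAlgebra ℤ (PushoutI φ)) id (s x) = x) →
    (∀ (i : ι) (x y : M), MonoidAlgebra.mapDomainRingHom ℤ (π i) ((s x) y) = 0) → Subsingleton M

/-- (PR) a projective `ℤG`-module of any rank which is generated, for every `i`, by the elements `(g - 1) m` with `g` in the kernel of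
the retraction `π i : G → A i`, is zero. -/
def StPR : Prop := ∀ {ι : Type u} {A : ι → Type u} {C : Type u} [∀ i, Group (A i)] [Group C] [Nonempty ι]
    (φ : ∀ i, C →* A i) (ρ : ∀ i, A i →* C) (π : ∀ i, PushoutI φ →* A i), (∀ i c, ρ i (φ i c) = c) →
    (∀ i a, π i (PushoutI.of i a) = a) → (∀ i j a, j ≠ i → π i (PushoutI.of j a) = φ i (ρ j a)) →
    (∀ i c, π i (PushoutI.base φ c) = φ i c) → ∀ (M : Type v) [AddCommGroup M] [Module (MonoidAlgebra ℤ (PushoutI φ)) M],
    Module.Projective (MonoidAlgebra ℤ (PushoutI φ)) M → (∀ i, Gen (π i).ker M) → Subsingleton M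

namespace IPR

variable {ι : Type u} {A : ι → Type u} {C : Type u} [∀ i, Group (A i)] [Group C]

lemma lf_anti (φ : ∀ i, C →* A i) (ρ : ∀ i, A i →* C) {m m' : ℕ} (h : m ≤ m') : Lf φ ρ m' ≤ Lf φ ρ m := by
  apply AddSubgroup.closure_mono
  rintro x ⟨c, l, hl, hm, hx⟩
  exact ⟨c, l, hl, h.trans hm, hx⟩

end IPR

theorem pr_PS (h1 : StTP.{u}) (h2 : StSP.{u}) (h3 : StP2.{u}) (h4 : StZ1.{u}) (h5 : StL2.{u}) (h6 : StIN.{u}) :
    StPS.{u, v} := by
  intro ι A C _ _ _ φ ρ π hρ hπ1 hπ2 hπ3 M _ _ s hs' hzero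
  have key : ∀ m : ℕ, ∀ x y : M, (s x) y ∈ Lf φ ρ (m + 2) := by
    intro m
    induction m with
    | zero =>
      intro x y
      obtain ⟨a, ha, z, hzz, hxy⟩ := h2 φ ρ ((s x) y) (h1 φ ρ hρ ((s x) y))
      have ha0 : a = 0 := by
        apply h4 φ ρ π hρ hπ1 hπ2 hπ3 a ha
        intro i
        have e1 := hzero i x y
        rw [hxy, map_add, h3 φ ρ π hπ1 hπ2 hπ3 i z hzz, add_zero] at e1
        exact e1
      have e2 : (s x) y = z := by rw [hxy, ha0, zero_add]
      rw [e2]
      exact hzz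
    | succ m ih =>
      intro x y
      have e1 : (s x) y = ∑ z ∈ (s x).support, (s x) z * (s z) y := by
        conv_lhs => rw [← hs' x]
        rw [Finsupp.linearCombination_apply, Finsupp.sum, map_sum, Finsupp.finsetSum_apply]
        refine Finset.sum_congr rfl fun z _ => ?_
        rw [map_smul, Finsupp.smul_apply, smul_eq_mul]
        rfl
      rw [e1]
      refine AddSubgroup.sum_mem _ fun z _ => ?_
      exact h5 φ ρ hρ (m + 2) _ _ (IPR.lf_anti φ ρ (by omega) (ih x z)) (ih z y)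
  have hall : ∀ x : M, x = 0 := by
    intro x
    have e1 : s x = 0 := by
      apply Finsupp.ext
      intro y
      rw [Finsupp.zero_apply]
      exact h6 φ ρ hρ _ fun m => IPR.lf_anti φ ρ (by omega) (key m x y)
    rw [← hs' x, e1, map_zero]
  exact ⟨fun a b => by rw [hall a, hall b]⟩

theorem pr_PR (h : StPS.{u, v}) : StPR.{u, v} := by
  intro ι A C _ _ _ φ ρ π hρ hπ1 hπ2 hπ3 M _ _ hM hspan
  obtain ⟨s, hs⟩ := Module.projective_def'.mp hM
  have hs' : ∀ x : M, Finsupp.linearCombination (MonoidAlgebra ℤ (PushoutI φ)) id (s x) = x := fun x =>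
    congrArg (fun f : M →ₗ[MonoidAlgebra ℤ (PushoutI φ)] M => f x) hs
  refine h φ ρ π hρ hπ1 hπ2 hπ3 M s hs' ?_
  intro i
  let Z : Submodule (MonoidAlgebra ℤ (PushoutI φ)) M :=
    { carrier := {x | ∀ y, MonoidAlgebra.mapDomainRingHom ℤ (π i) ((s x) y) = 0}
      add_mem' := fun {x x'} hx hx' y => by
        rw [map_add, Finsupp.add_apply, map_add, hx y, hx' y, add_zero]
      zero_mem' := fun y => by rw [map_zero, Finsupp.zero_apply, map_zero]
      smul_mem' := fun c x hx y => by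
        rw [map_smul, Finsupp.smul_apply, smul_eq_mul, map_mul, hx y, mul_zero] }
  have hZ : (⊤ : Submodule (MonoidAlgebra ℤ (PushoutI φ)) M) ≤ Z := by
    have h1 := hspan i
    unfold Gen at h1
    rw [← h1, Submodule.span_le]
    rintro _ ⟨g, hg, m, rfl⟩
    change ∀ y, _ = _
    intro y
    rw [map_smul, Finsupp.smul_apply, smul_eq_mul, map_mul, map_sub, map_one]
    have e1 : MonoidAlgebra.mapDomainRingHom ℤ (π i) (MonoidAlgebra.single g (1 : ℤ)) = 1 := by
      rw [MonoidAlgebra.mapDomainRingHom_apply, MonoidAlgebra.mapDomain_single, (MonoidHom.mem_ker).mp hg]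
      rfl
    rw [e1, sub_self, zero_mul]
  intro x y
  exact hZ (Submodule.mem_top (x := x)) y

end Pool.Agent.Work.MP_79a731_al.FP
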