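import Mathlib
import Pool.Agent.Work.MP_79a731_al.FP.Stmts

set_option autoImplicit false

universe u

namespace Pool.Agent.Work.MP_79a731_al.FP

open Monoid

namespace IRT

variable {ι : Type u} {A : ι → Type u} {C : Type u} [∀ i, Group (A i)] [Group C]

open Classical in
/-- the components of the retraction onto `A i` -/
noncomputable def pf (φ : ∀ i, C →* A i) (ρ : ∀ i, A i →* C) (i j : ι) : A j →* A i :=
  if h : j = i then (h ▸ MonoidHom.id (A i)) else (φ i).comp (ρ j)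

theorem pf_self (φ : ∀ i, C →* A i) (ρ : ∀ i, A i →* C) (i : ι) :
    pf φ ρ i i = MonoidHom.id (A i) := by
  unfold pf
  rw [dif_pos rfl]

theorem pf_ne (φ : ∀ i, C →* A i) (ρ : ∀ i, A i →* C) (i j : ι) (h : j ≠ i) :
    pf φ ρ i j = (φ i).comp (ρ j) := by
  unfold pf
  rw [dif_neg h]

theorem pf_comp (φ : ∀ i, C →* A i) (ρ : ∀ i, A i →* C) (hρ : ∀ i c, ρ i (φ i c) = c)
    (i j : ι) : (pf φ ρ i j).comp (φ j) = φ i := by
  by_cases h : j = i
  · subst h
    rw [pf_self]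
    rfl
  · rw [pf_ne φ ρ i j h]
    ext c
    change φ i (ρ j (φ j c)) = φ i c
    rw [hρ]

end IRT

theorem pr_RT : StRT.{u} := by
  intro ι A C _ _ φ ρ hρ
  refine ⟨fun i => PushoutI.lift (IRT.pf φ ρ i) (φ i) (IRT.pf_comp φ ρ hρ i), ?_, ?_, ?_⟩
  · intro i a
    rw [PushoutI.lift_of, IRT.pf_self]
    rfl
  · intro i j a hji
    rw [PushoutI.lift_of, IRT.pf_ne φ ρ i j hji]
    rfl
  · intro i c
    rw [PushoutI.lift_base]

end Pool.Agent.Work.MP_79a731_al.FP
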