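import Mathlib
import Pool.Agent.Work.MP_79a731_al.FP.Stmts

/-!
Block FP of MP_79a731_al, item SP: splitting by length.
-/

set_option autoImplicit false

universe u

namespace Pool.Agent.Work.MP_79a731_al.FP

open Monoid

theorem pr_SP : StSP.{u} := by
  intro ι A C _ _ φ ρ x hx
  unfold Lf at hx
  induction hx using AddSubgroup.closure_induction with
  | mem x hx =>
    obtain ⟨c, l, hl, -, rfl⟩ := hx
    rcases l with _ | ⟨a, l⟩
    · refine ⟨sc φ c, AddSubgroup.subset_closure (Or.inl ⟨c, rfl⟩), 0, AddSubgroup.zero_mem _, ?_⟩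
      simp [bet]
    · rcases l with _ | ⟨b, l⟩
      · refine ⟨sc φ c * (sf φ a.1 a.2 - 1), AddSubgroup.subset_closure
          (Or.inr ⟨c, a.1, a.2, (hl.1 a (by simp)).1, rfl⟩), 0, AddSubgroup.zero_mem _, ?_⟩
        simp [bet]
      · refine ⟨0, AddSubgroup.zero_mem _, sc φ c * bet φ (a :: b :: l),
          AddSubgroup.subset_closure ⟨c, a :: b :: l, hl, ?_, rfl⟩, (zero_add _).symm⟩
        simp
  | zero => exact ⟨0, AddSubgroup.zero_mem _, 0, AddSubgroup.zero_mem _, (add_zero 0).symm⟩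
  | add x y _ _ ihx ihy =>
    obtain ⟨y1, hy1, z1, hz1, h1⟩ := ihx
    obtain ⟨y2, hy2, z2, hz2, h2⟩ := ihy
    refine ⟨y1 + y2, AddSubgroup.add_mem _ hy1 hy2, z1 + z2, AddSubgroup.add_mem _ hz1 hz2, ?_⟩
    rw [h1, h2]
    abel
  | neg x _ ih =>
    obtain ⟨y1, hy1, z1, hz1, h1⟩ := ih
    refine ⟨-y1, AddSubgroup.neg_mem _ hy1, -z1, AddSubgroup.neg_mem _ hz1, ?_⟩
    rw [h1]
    abel

end Pool.Agent.Work.MP_79a731_al.FP
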