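import Mathlib
import Pool.Agent.Work.MP_79a731_al.FP.Stmts

/-! Item TP of block FP (helper55). -/

set_option autoImplicit false

universe u

namespace Pool.Agent.Work.MP_79a731_al.FP

open Monoid

namespace ITP

variable {ι : Type u} {A : ι → Type u} {C : Type u} [∀ i, Group (A i)] [Group C]

theorem sc_mul (φ : ∀ i, C →* A i) (c c' : C) : sc φ c * sc φ c' = sc φ (c * c') := by
  unfold sc
  rw [MonoidAlgebra.single_mul_single, map_mul, mul_one]

theorem sf_mul (φ : ∀ i, C →* A i) (i : ι) (a b : A i) : sf φ i a * sf φ i b = sf φ i (a * b) := by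
  unfold sf
  rw [MonoidAlgebra.single_mul_single, map_mul, mul_one]

theorem sf_phi (φ : ∀ i, C →* A i) (i : ι) (c : C) : sf φ i (φ i c) = sc φ c := by
  unfold sf sc
  rw [PushoutI.of_apply_eq_base]

theorem bet_mem (φ : ∀ i, C →* A i) (ρ : ∀ i, A i →* C) (c : C) (l : List (Σ i, A i)) (hl : Red ρ l) :
    sc φ c * bet φ l ∈ Lf φ ρ 0 :=
  AddSubgroup.subset_closure ⟨c, l, hl, Nat.zero_le _, rfl⟩

theorem Li_mem (φ : ∀ i, C →* A i) (ρ : ∀ i, A i →* C) (i : ι) (c : C)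
    (z : MonoidAlgebra ℤ (PushoutI φ)) (hz : z ∈ Li φ ρ i 0) : sc φ c * z ∈ Lf φ ρ 0 := by
  have h : Li φ ρ i 0 ≤ (Lf φ ρ 0).comap (AddMonoidHom.mulLeft (sc φ c)) := by
    unfold Li
    rw [AddSubgroup.closure_le]
    rintro x ⟨k, l, hl, -, rfl⟩
    exact bet_mem φ ρ c _ hl
  exact h hz

theorem base_mem (φ : ∀ i, C →* A i) (ρ : ∀ i, A i →* C) (c : C)
    (z : MonoidAlgebra ℤ (PushoutI φ)) (hz : z ∈ Lf φ ρ 0) : sc φ c * z ∈ Lf φ ρ 0 := by
  have h : Lf φ ρ 0 ≤ (Lf φ ρ 0).comap (AddMonoidHom.mulLeft (sc φ c)) := by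
    conv_lhs => unfold Lf
    rw [AddSubgroup.closure_le]
    rintro x ⟨c', l, hl, -, rfl⟩
    change sc φ c * (sc φ c' * bet φ l) ∈ Lf φ ρ 0
    rw [← mul_assoc, sc_mul]
    exact bet_mem φ ρ _ _ hl
  exact h hz

theorem of_mem (h1 : StK1.{u}) (φ : ∀ i, C →* A i) (ρ : ∀ i, A i →* C) (hρ : ∀ i c, ρ i (φ i c) = c)
    (i : ι) (a : A i) (z : MonoidAlgebra ℤ (PushoutI φ)) (hz : z ∈ Lf φ ρ 0) :
    sf φ i a * z ∈ Lf φ ρ 0 := by
  have h : Lf φ ρ 0 ≤ (Lf φ ρ 0).comap (AddMonoidHom.mulLeft (sf φ i a)) := by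
    conv_lhs => unfold Lf
    rw [AddSubgroup.closure_le]
    rintro x ⟨c, l, hl, -, rfl⟩
    change sf φ i a * (sc φ c * bet φ l) ∈ Lf φ ρ 0
    have e1 : sf φ i a * (sc φ c * bet φ l) =
        sc φ (ρ i a * c) * ((sf φ i ((φ i (ρ i a * c))⁻¹ * (a * φ i c)) - 1) * bet φ l) +
        sc φ (ρ i a * c) * bet φ l := by
      have e2 : sf φ i a * sc φ c =
          sc φ (ρ i a * c) * sf φ i ((φ i (ρ i a * c))⁻¹ * (a * φ i c)) := by
        rw [← sf_phi φ i c, ← sf_phi φ i (ρ i a * c), sf_mul, sf_mul]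
        congr 1
        group
      rw [← mul_assoc, e2]
      noncomm_ring
    rw [e1]
    refine AddSubgroup.add_mem _ (Li_mem φ ρ i _ _ (h1 φ ρ i _ l 0 ?_ hl (Nat.zero_le _)))
      (bet_mem φ ρ _ _ hl)
    rw [map_mul, map_inv, hρ, map_mul, hρ]
    group
  exact h hz

theorem single_mem (h1 : StK1.{u}) (φ : ∀ i, C →* A i) (ρ : ∀ i, A i →* C)
    (hρ : ∀ i c, ρ i (φ i c) = c) (g : PushoutI φ) :
    ∀ z ∈ Lf φ ρ 0, MonoidAlgebra.single g (1 : ℤ) * z ∈ Lf φ ρ 0 := by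
  induction g using PushoutI.induction_on with
  | of i a => exact fun z hz => of_mem h1 φ ρ hρ i a z hz
  | base c => exact fun z hz => base_mem φ ρ c z hz
  | mul x y hx hy =>
    intro z hz
    have e : (MonoidAlgebra.single (x * y) (1 : ℤ) : MonoidAlgebra ℤ (PushoutI φ)) =
        MonoidAlgebra.single x 1 * MonoidAlgebra.single y 1 := by
      rw [MonoidAlgebra.single_mul_single, mul_one]
    rw [e, mul_assoc]
    exact hx _ (hy _ hz)

theorem one_mem (φ : ∀ i, C →* A i) (ρ : ∀ i, A i →* C) :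
    (1 : MonoidAlgebra ℤ (PushoutI φ)) ∈ Lf φ ρ 0 := by
  have h := bet_mem φ ρ 1 [] ⟨by simp, by simp⟩
  have e : sc φ 1 * bet φ [] = 1 := by
    unfold sc bet
    rw [map_one, List.map_nil, List.prod_nil, mul_one, MonoidAlgebra.one_def]
  rwa [e] at h

end ITP

theorem pr_TP (h1 : StK1.{u}) : StTP.{u} := by
  intro ι A C _ _ φ ρ hρ x
  induction x using MonoidAlgebra.induction_linear with
  | zero => exact AddSubgroup.zero_mem _
  | add f g hf hg => exact AddSubgroup.add_mem _ hf hg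
  | single g a =>
    have h := ITP.single_mem h1 φ ρ hρ g 1 (ITP.one_mem φ ρ)
    rw [mul_one] at h
    have e : (MonoidAlgebra.single g a : MonoidAlgebra ℤ (PushoutI φ)) =
        a • MonoidAlgebra.single g (1 : ℤ) := by
      rw [MonoidAlgebra.smul_single]
      simp
    rw [e]
    exact AddSubgroup.zsmul_mem _ h a

end Pool.Agent.Work.MP_79a731_al.FP
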