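import Mathlib
import Pool.Agent.Work.MP_79a731_al.FP.Stmts

/-!
# MP_79a731_al, block FP, item TR: triangularity (helper57)
-/

set_option autoImplicit false

universe u

namespace Pool.Agent.Work.MP_79a731_al.FP

open Monoid

namespace ITR

variable {G : Type u} [Group G]

/-- All elements of the support have length less than `n`. -/
def Sm (len : G → ℕ) (n : ℕ) (x : MonoidAlgebra ℤ G) : Prop := ∀ g : G, x.coeff g ≠ 0 → len g < n

theorem Sm_add {len : G → ℕ} {n : ℕ} {x y : MonoidAlgebra ℤ G} (hx : Sm len n x) (hy : Sm len n y) :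
    Sm len n (x + y) := by
  intro g hg
  by_cases h : x.coeff g = 0
  · refine hy g fun h' => hg ?_
    rw [MonoidAlgebra.coeff_add, Finsupp.add_apply, h, h', add_zero]
  · exact hx g h

theorem Sm_neg {len : G → ℕ} {n : ℕ} {x : MonoidAlgebra ℤ G} (hx : Sm len n x) :
    Sm len n (-x) := by
  intro g hg
  refine hx g fun h' => hg ?_
  have h1 : (-x).coeff g + x.coeff g = 0 := by
    rw [← Finsupp.add_apply, ← MonoidAlgebra.coeff_add, neg_add_cancel]
    rfl
  rw [h', add_zero] at h1
  exact h1

theorem Sm_mono {len : G → ℕ} {n n' : ℕ} {x : MonoidAlgebra ℤ G} (h : n ≤ n') (hx : Sm len n x) :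
    Sm len n' x := fun g hg => lt_of_lt_of_le (hx g hg) h

theorem Sm_single {len : G → ℕ} {n : ℕ} {a : G} (h : len a < n) :
    Sm len n (MonoidAlgebra.single a (1 : ℤ)) := by
  intro g hg
  have h1 : g = a := by
    by_contra hne
    apply hg
    rw [MonoidAlgebra.coeff_single, Finsupp.single_eq_of_ne hne]
  rw [h1]
  exact h

theorem Sm_mul {len : G → ℕ} {n n' : ℕ} {a : G} {x : MonoidAlgebra ℤ G} (hx : Sm len n x)
    (h : ∀ g : G, len g < n → len (a * g) < n') :
    Sm len n' (MonoidAlgebra.single a (1 : ℤ) * x) := by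
  intro g hg
  rw [MonoidAlgebra.coeff_single_mul_apply, one_mul] at hg
  have h1 := h _ (hx _ hg)
  rwa [mul_inv_cancel_left] at h1

end ITR

open ITR in
theorem pr_TR : StTR.{u} := by
  intro ι A C _ _ φ ρ len h1 h2 h3 c l hl
  have key : ∀ l : List (Σ i, A i), Red ρ l →
      Sm len l.length (bet φ l - MonoidAlgebra.single (val φ l) (1 : ℤ)) := by
    intro l
    induction l with
    | nil =>
      intro _
      have h0 : bet φ ([] : List (Σ i, A i)) - MonoidAlgebra.single (val φ []) (1 : ℤ) = 0 := by
        rw [sub_eq_zero]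
        rfl
      rw [h0]
      intro g hg
      exact absurd rfl hg
    | cons a t ih =>
      intro hat
      have ht : Red ρ t := ⟨fun x hx => hat.1 x (List.mem_cons_of_mem _ hx), hat.2.tail⟩
      have hr := ih ht
      have hb : bet φ (a :: t) = (sf φ a.1 a.2 - 1) * bet φ t := by
        unfold bet
        rw [List.map_cons, List.prod_cons]
      have hv : val φ (a :: t) = PushoutI.of (φ := φ) a.1 a.2 * val φ t := by
        unfold val
        rw [List.map_cons, List.prod_cons]
      have hs : MonoidAlgebra.single (val φ (a :: t)) (1 : ℤ) =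
          sf φ a.1 a.2 * MonoidAlgebra.single (val φ t) (1 : ℤ) := by
        rw [hv]
        unfold sf
        rw [MonoidAlgebra.single_mul_single, one_mul]
      have he : bet φ (a :: t) - MonoidAlgebra.single (val φ (a :: t)) (1 : ℤ) =
          sf φ a.1 a.2 * (bet φ t - MonoidAlgebra.single (val φ t) (1 : ℤ)) +
            (-(bet φ t - MonoidAlgebra.single (val φ t) (1 : ℤ)) +
              -MonoidAlgebra.single (val φ t) (1 : ℤ)) := by
        rw [hb, hs]
        noncomm_ring
      have hlt : len (val φ t) = t.length := by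
        have h := h1 1 t ht
        rwa [map_one, one_mul] at h
      rw [he, List.length_cons]
      refine Sm_add ?_ (Sm_add (Sm_neg (Sm_mono (Nat.le_succ _) hr)) (Sm_neg (Sm_single ?_)))
      · unfold sf
        refine Sm_mul hr fun g hg => ?_
        have h := h2 a.1 a.2 g
        omega
      · omega
  have h4 : sc φ c * bet φ l - MonoidAlgebra.single (PushoutI.base φ c * val φ l) (1 : ℤ) =
      sc φ c * (bet φ l - MonoidAlgebra.single (val φ l) (1 : ℤ)) := by
    rw [mul_sub]
    unfold sc
    rw [MonoidAlgebra.single_mul_single, one_mul]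
  rw [h4]
  unfold sc
  refine Sm_mul (key l hl) fun g hg => ?_
  rw [h3]
  exact hg

end Pool.Agent.Work.MP_79a731_al.FP
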