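import Mathlib
import Pool.Agent.Work.MP_79a731_al.FP.Stmts

/-! Block FP of MP_79a731_al, item UN: uniqueness of normal forms. -/

set_option autoImplicit false

namespace Pool.Agent.Work.MP_79a731_al.FP

open Monoid

universe u

namespace IUN

variable {ι : Type u} {A : ι → Type u} {C : Type u} [∀ i, Group (A i)] [Group C]

/-- The kernels of the retractions form a transversal. -/
def tv (φ : ∀ i, C →* A i) (ρ : ∀ i, A i →* C) (h : ∀ i c, ρ i (φ i c) = c) :
    PushoutI.NormalWord.Transversal φ where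
  injective := fun i x y hxy => by rw [← h i x, ← h i y, hxy]
  set := fun i => {x | ρ i x = 1}
  one_mem := fun i => map_one (ρ i)
  compl := fun i => by
    rw [Subgroup.isComplement_iff_existsUnique]
    intro g
    refine ⟨(⟨φ i (ρ i g), ⟨ρ i g, rfl⟩⟩, ⟨(φ i (ρ i g))⁻¹ * g, ?_⟩), ?_, ?_⟩
    · show ρ i ((φ i (ρ i g))⁻¹ * g) = 1
      rw [map_mul, map_inv, h, inv_mul_cancel]
    · show φ i (ρ i g) * ((φ i (ρ i g))⁻¹ * g) = g
      rw [mul_inv_cancel_left]
    · rintro ⟨⟨_, c, rfl⟩, ⟨k, hk⟩⟩ hg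
      have hk' : ρ i k = 1 := hk
      have hg' : φ i c * k = g := hg
      have hc : ρ i g = c := by
        rw [← hg', map_mul, h, hk', mul_one]
      apply Prod.ext
      · apply Subtype.ext
        show φ i c = φ i (ρ i g)
        rw [hc]
      · apply Subtype.ext
        show k = (φ i (ρ i g))⁻¹ * g
        rw [hc, ← hg', inv_mul_cancel_left]

/-- The normal word of a reduced list. -/
def nw (φ : ∀ i, C →* A i) (ρ : ∀ i, A i →* C) (h : ∀ i c, ρ i (φ i c) = c) (c : C)
    (l : List (Σ i, A i)) (hl : Red ρ l) : PushoutI.NormalWord (tv φ ρ h) where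
  toList := l
  ne_one := fun x hx => (hl.1 x hx).2
  chain_ne := hl.2
  head := c
  normalized := fun i g hg => (hl.1 ⟨i, g⟩ hg).1

theorem prod_nw (φ : ∀ i, C →* A i) (ρ : ∀ i, A i →* C) (h : ∀ i c, ρ i (φ i c) = c) (c : C)
    (l : List (Σ i, A i)) (hl : Red ρ l) :
    (nw φ ρ h c l hl).prod = PushoutI.base φ c * val φ l := by
  unfold PushoutI.NormalWord.prod
  congr 1
  show PushoutI.ofCoprodI (CoprodI.Word.prod _) = val φ l
  unfold CoprodI.Word.prod val
  rw [map_list_prod, List.map_map]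
  congr 1

end IUN

theorem pr_UN : StUN.{u} := by
  intro ι A C _ _ φ ρ h c c' l l' hl hl' he
  rw [← IUN.prod_nw φ ρ h c l hl, ← IUN.prod_nw φ ρ h c' l' hl'] at he
  have e := PushoutI.NormalWord.prod_injective he
  constructor
  · exact congrArg (fun w => w.head) e
  · exact congrArg (fun w => w.toList) e

end Pool.Agent.Work.MP_79a731_al.FP
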