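import Mathlib
import Pool.Agent.Work.MP_79a731_al.FP.Stmts

/-!
Block FP of MP_79a731_al, item Z1
-/

set_option autoImplicit false

namespace Pool.Agent.Work.MP_79a731_al.FP

open Monoid

universe u

namespace IZ1

theorem map_single {G H : Type u} [Group G] [Group H] (f : G →* H) (g : G) :
    MonoidAlgebra.mapDomainRingHom ℤ f (MonoidAlgebra.single g 1) = MonoidAlgebra.single (f g) 1 := by
  simp

end IZ1

open IZ1 in
theorem pr_Z1 : StZ1.{u} := by
  intro ι A C _ _ hne φ ρ π hρ h1 h2 h3 y hy hz
  classical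
  obtain ⟨i0⟩ := hne
  obtain ⟨E, hE⟩ : ∃ E : ι → (MonoidAlgebra ℤ (PushoutI φ) →+* MonoidAlgebra ℤ (PushoutI φ)),
      E = fun i => (MonoidAlgebra.mapDomainRingHom ℤ (PushoutI.of (φ := φ) i)).comp
        (MonoidAlgebra.mapDomainRingHom ℤ (π i)) := ⟨_, rfl⟩
  obtain ⟨S, hS⟩ : ∃ S : MonoidAlgebra ℤ (PushoutI φ) →+* MonoidAlgebra ℤ (PushoutI φ),
      S = ((MonoidAlgebra.mapDomainRingHom ℤ (PushoutI.base φ)).comp
        (MonoidAlgebra.mapDomainRingHom ℤ (ρ i0))).comp
        (MonoidAlgebra.mapDomainRingHom ℤ (π i0)) := ⟨_, rfl⟩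
  have hEc : ∀ i c, E i (sc φ c) = sc φ c := by
    intro i c
    rw [hE]
    simp only [RingHom.comp_apply, sc]
    rw [map_single, map_single, h3, PushoutI.of_apply_eq_base]
  have hSc : ∀ c, S (sc φ c) = sc φ c := by
    intro c
    rw [hS]
    simp only [RingHom.comp_apply, sc]
    rw [map_single, map_single, map_single, h3, hρ]
  have hEk : ∀ i j (k : A j), ρ j k = 1 →
      E i (sf φ j k - 1) = if i = j then sf φ j k - 1 else 0 := by
    intro i j k hk
    rw [map_sub, map_one, hE]
    simp only [RingHom.comp_apply, sf]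
    rw [map_single]
    by_cases hij : i = j
    · subst hij
      rw [if_pos rfl, h1, map_single]
    · rw [if_neg hij, h2 i j k (fun h => hij h.symm), hk, map_one, map_single, map_one]
      exact sub_self _
  have hSk : ∀ j (k : A j), ρ j k = 1 → S (sf φ j k - 1) = 0 := by
    intro j k hk
    rw [map_sub, map_one, hS]
    simp only [RingHom.comp_apply, sf]
    rw [map_single, map_single, map_single]
    by_cases hij : j = i0
    · subst hij
      rw [h1, hk, map_one]
      exact sub_self _
    · rw [h2 i0 j k hij, hρ, hk, map_one]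
      exact sub_self _
  have key : ∃ s : Finset ι, ∀ t : Finset ι, s ⊆ t → y - S y = ∑ i ∈ t, (E i y - S y) := by
    refine AddSubgroup.closure_induction (p := fun y _ => ∃ s : Finset ι, ∀ t : Finset ι, s ⊆ t →
      y - S y = ∑ i ∈ t, (E i y - S y)) ?_ ?_ ?_ ?_ hy
    · rintro x (⟨c, rfl⟩ | ⟨c, j, k, hk, rfl⟩)
      · refine ⟨∅, fun t _ => ?_⟩
        rw [hSc, sub_self]
        symm
        refine Finset.sum_eq_zero fun i _ => ?_
        rw [hEc, sub_self]
      · refine ⟨{j}, fun t ht => ?_⟩
        have hj : j ∈ t := ht (Finset.mem_singleton_self j)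
        have e1 : ∀ i ∈ t, E i (sc φ c * (sf φ j k - 1)) - S (sc φ c * (sf φ j k - 1)) =
            if i = j then sc φ c * (sf φ j k - 1) else 0 := by
          intro i _
          rw [map_mul, map_mul, hEk i j k hk, hSk j k hk, hEc, mul_zero, sub_zero]
          by_cases hij : i = j
          · rw [if_pos hij, if_pos hij]
          · rw [if_neg hij, if_neg hij, mul_zero]
        rw [Finset.sum_congr rfl e1, Finset.sum_ite_eq' t j, if_pos hj, map_mul, hSk j k hk,
          mul_zero, sub_zero]
    · refine ⟨∅, fun t _ => ?_⟩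
      simp
    · rintro a b _ _ ⟨s1, hs1⟩ ⟨s2, hs2⟩
      refine ⟨s1 ∪ s2, fun t ht => ?_⟩
      have e1 := hs1 t (Finset.union_subset_left ht)
      have e2 := hs2 t (Finset.union_subset_right ht)
      have e3 : ∑ i ∈ t, (E i (a + b) - S (a + b)) =
          ∑ i ∈ t, (E i a - S a) + ∑ i ∈ t, (E i b - S b) := by
        rw [← Finset.sum_add_distrib]
        refine Finset.sum_congr rfl fun i _ => ?_
        rw [map_add, map_add]
        abel
      rw [e3, ← e1, ← e2, map_add]
      abel
    · rintro a _ ⟨s, hs⟩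
      refine ⟨s, fun t ht => ?_⟩
      have e1 := hs t ht
      have e3 : ∑ i ∈ t, (E i (-a) - S (-a)) = -∑ i ∈ t, (E i a - S a) := by
        rw [← Finset.sum_neg_distrib]
        refine Finset.sum_congr rfl fun i _ => ?_
        rw [map_neg, map_neg]
        abel
      rw [e3, ← e1, map_neg]
      abel
  obtain ⟨s, hs⟩ := key
  have hSy : S y = 0 := by
    rw [hS]
    simp only [RingHom.comp_apply]
    rw [hz i0, map_zero, map_zero]
  have hEy : ∀ i, E i y = 0 := by
    intro i
    rw [hE]
    simp only [RingHom.comp_apply]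
    rw [hz i, map_zero]
  have h := hs s (Finset.Subset.refl s)
  rw [hSy, sub_zero] at h
  rw [h]
  refine Finset.sum_eq_zero fun i _ => ?_
  rw [hEy i, sub_zero]

end Pool.Agent.Work.MP_79a731_al.FP
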