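import Pool.Agent.Work.MP_79a731_al.FP.I_EX
import Pool.Agent.Work.MP_79a731_al.FP.I_UN
import Pool.Agent.Work.MP_79a731_al.FP.I_K1
import Pool.Agent.Work.MP_79a731_al.FP.I_K2
import Pool.Agent.Work.MP_79a731_al.FP.I_ML
import Pool.Agent.Work.MP_79a731_al.FP.I_CM
import Pool.Agent.Work.MP_79a731_al.FP.I_L2
import Pool.Agent.Work.MP_79a731_al.FP.I_TP
import Pool.Agent.Work.MP_79a731_al.FP.I_RT
import Pool.Agent.Work.MP_79a731_al.FP.I_SP
import Pool.Agent.Work.MP_79a731_al.FP.I_P2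
import Pool.Agent.Work.MP_79a731_al.FP.I_Z1
import Pool.Agent.Work.MP_79a731_al.FP.I_LN
import Pool.Agent.Work.MP_79a731_al.FP.I_TR
import Pool.Agent.Work.MP_79a731_al.FP.I_IN
import Pool.Agent.Work.MP_79a731_al.FP.I_PR

/-!
Assembly of block FP.
-/

set_option autoImplicit false

namespace Pool.Agent.Work.MP_79a731_al.FP

universe u v

theorem hRT : StRT.{u} := pr_RT

theorem hPS : StPS.{u, v} :=
  pr_PS (pr_TP pr_K1) pr_SP pr_P2 pr_Z1 (pr_L2 (pr_ML pr_K1 pr_K2) pr_CM)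
    (pr_IN (pr_LN pr_EX pr_UN) pr_TR pr_UN)

theorem hPR : StPR.{u, v} := pr_PR hPS

end Pool.Agent.Work.MP_79a731_al.FP
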