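import Mathlib
import Pool.Agent.Work.MP_79a731_al.FP.Stmts

/-!
Block FP of MP_79a731_al, item EX: existence of normal forms.
-/

set_option autoImplicit false

universe u

namespace Pool.Agent.Work.MP_79a731_al.FP

open Monoid

namespace IEX

variable {ι : Type u} {A : ι → Type u} {C : Type u} [∀ i, Group (A i)] [Group C]

theorem val_nil (φ : ∀ i, C →* A i) : val φ [] = 1 := rfl

theorem val_cons (φ : ∀ i, C →* A i) (x : Σ i, A i) (l : List (Σ i, A i)) :
    val φ (x :: l) = PushoutI.of (φ := φ) x.1 x.2 * val φ l := by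
  simp [val]

theorem red_tail {ρ : ∀ i, A i →* C} {x : Σ i, A i} {l : List (Σ i, A i)} (h : Red ρ (x :: l)) :
    Red ρ l := by
  refine ⟨fun y hy => h.1 y (List.mem_cons_of_mem _ hy), ?_⟩
  rcases l with _ | ⟨y, t⟩
  · exact List.isChain_nil
  · exact (List.isChain_cons_cons.1 h.2).2

theorem red_cons_of_ne {ρ : ∀ i, A i →* C} {i : ι} {k : A i} {l : List (Σ i, A i)}
    (hk : ρ i k = 1) (hk1 : k ≠ 1) (hl : Red ρ l) (h : ∀ y t, l = y :: t → i ≠ y.1) :
    Red ρ (⟨i, k⟩ :: l) := by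
  refine ⟨fun y hy => ?_, ?_⟩
  · rcases List.mem_cons.1 hy with rfl | hy
    · exact ⟨hk, hk1⟩
    · exact hl.1 y hy
  · rcases l with _ | ⟨y, t⟩
    · exact List.isChain_singleton _
    · exact List.isChain_cons_cons.2 ⟨h y t rfl, hl.2⟩

/-- Left multiplication by an element of the kernel of a retraction. -/
theorem mulK (φ : ∀ i, C →* A i) (ρ : ∀ i, A i →* C) (i : ι) (k : A i) (l : List (Σ i, A i))
    (hk : ρ i k = 1) (hl : Red ρ l) :
    ∃ l', Red ρ l' ∧ PushoutI.of (φ := φ) i k * val φ l = val φ l' := by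
  by_cases hk1 : k = 1
  · exact ⟨l, hl, by rw [hk1, map_one, one_mul]⟩
  rcases l with _ | ⟨⟨j, k'⟩, t⟩
  · exact ⟨[⟨i, k⟩], red_cons_of_ne hk hk1 hl (by simp), by rw [val_cons]⟩
  · by_cases hij : i = j
    · subst hij
      have hk' := (hl.1 ⟨i, k'⟩ List.mem_cons_self).1
      have ht := red_tail hl
      by_cases h1 : k * k' = 1
      · refine ⟨t, ht, ?_⟩
        rw [val_cons, ← mul_assoc, ← map_mul, h1, map_one, one_mul]
      · refine ⟨⟨i, k * k'⟩ :: t, red_cons_of_ne ?_ h1 ht ?_, ?_⟩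
        · rw [map_mul, hk, one_mul]
          exact hk'
        · rintro y s rfl
          exact (List.isChain_cons_cons.1 hl.2).1
        · rw [val_cons, val_cons, ← mul_assoc, ← map_mul]
    · refine ⟨⟨i, k⟩ :: ⟨j, k'⟩ :: t, red_cons_of_ne hk hk1 hl ?_, by rw [val_cons _ ⟨i, k⟩]⟩
      rintro y s h
      rw [List.cons.injEq] at h
      rw [← h.1]
      exact hij

end IEX

/-- Item EX. -/
theorem pr_EX : StEX.{u} := by
  intro ι A C _ _ φ ρ hρ g
  have key : ∀ x : PushoutI φ, ∀ g : PushoutI φ,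
      (∃ (c : C) (l : List (Σ i, A i)), Red ρ l ∧ g = PushoutI.base φ c * val φ l) →
      ∃ (c : C) (l : List (Σ i, A i)), Red ρ l ∧ x * g = PushoutI.base φ c * val φ l := by
    intro x
    induction x using PushoutI.induction_on with
    | of i a =>
      rintro g ⟨c, l, hl, rfl⟩
      have h1 : ρ i ((φ i (ρ i (a * φ i c)))⁻¹ * (a * φ i c)) = 1 := by
        rw [map_mul, map_inv, hρ, inv_mul_cancel]
      obtain ⟨l', hl', h2⟩ := IEX.mulK φ ρ i _ l h1 hl
      refine ⟨ρ i (a * φ i c), l', hl', ?_⟩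
      rw [← h2, ← mul_assoc, ← mul_assoc, ← PushoutI.of_apply_eq_base φ i,
        ← PushoutI.of_apply_eq_base φ i (ρ i (a * φ i c)), ← map_mul, ← map_mul,
        mul_inv_cancel_left]
    | base h =>
      rintro g ⟨c, l, hl, rfl⟩
      exact ⟨h * c, l, hl, by rw [map_mul, mul_assoc]⟩
    | mul x y hx hy =>
      intro g hg
      rw [mul_assoc]
      exact hx _ (hy g hg)
  obtain ⟨c, l, hl, h⟩ := key g 1 ⟨1, [], ⟨by simp, List.isChain_nil⟩, by
    rw [map_one, IEX.val_nil, mul_one]⟩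
  exact ⟨c, l, hl, by rw [← h, mul_one]⟩

end Pool.Agent.Work.MP_79a731_al.FP
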