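import Mathlib
import Pool.Agent.Work.MP_79a731_al.FP.Stmts

/-! Item P2 of block FP: the retractions vanish on `L 2`. -/

set_option autoImplicit false

universe u

namespace Pool.Agent.Work.MP_79a731_al.FP

open Monoid

namespace IP2

variable {ι : Type u} {A : ι → Type u} {C : Type u} [∀ i, Group (A i)] [Group C]

/-- a letter outside the factor `i` kills the product under the retraction `π i` -/
theorem bet_zero (φ : ∀ i, C →* A i) (ρ : ∀ i, A i →* C) (π : ∀ i, PushoutI φ →* A i)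
    (h2 : ∀ i j a, j ≠ i → π i (PushoutI.of j a) = φ i (ρ j a)) (i : ι) (l : List (Σ i, A i))
    (x : Σ i, A i) (hx : x ∈ l) (hi : x.1 ≠ i) (hr : ρ x.1 x.2 = 1) :
    MonoidAlgebra.mapDomainRingHom ℤ (π i) (bet φ l) = 0 := by
  unfold bet
  rw [map_list_prod]
  apply List.prod_eq_zero
  rw [List.mem_map]
  refine ⟨sf φ x.1 x.2 - 1, List.mem_map.2 ⟨x, hx, rfl⟩, ?_⟩
  rw [map_sub, map_one, sf]
  have : MonoidAlgebra.mapDomainRingHom ℤ (π i) (MonoidAlgebra.single (PushoutI.of (φ := φ) x.1 x.2) (1 : ℤ)) =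
      MonoidAlgebra.single (π i (PushoutI.of (φ := φ) x.1 x.2)) (1 : ℤ) := by
    simp
  rw [this, h2 i x.1 x.2 hi, hr, map_one, MonoidAlgebra.one_def, sub_self]

/-- a reduced list with at least two letters has a letter outside the factor `i` -/
theorem exists_letter (ρ : ∀ i, A i →* C) (i : ι) (l : List (Σ i, A i)) (hl : Red ρ l) (h : 2 ≤ l.length) :
    ∃ x ∈ l, x.1 ≠ i ∧ ρ x.1 x.2 = 1 := by
  obtain ⟨h1, hc⟩ := hl
  match l, h1, hc, h with
  | a :: b :: t, h1, hc, _ =>
    have hab : a.1 ≠ b.1 := by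
      have := List.isChain_cons_cons.1 hc
      exact this.1
    by_cases ha : a.1 = i
    · refine ⟨b, by simp, ?_, (h1 b (by simp)).1⟩
      intro hb
      exact hab (ha.trans hb.symm)
    · exact ⟨a, by simp, ha, (h1 a (by simp)).1⟩

end IP2

theorem pr_P2 : StP2.{u} := by
  intro ι A C _ _ φ ρ π _ h2 _ i x hx
  unfold Lf at hx
  refine AddSubgroup.closure_induction
    (p := fun x _ => MonoidAlgebra.mapDomainRingHom ℤ (π i) x = 0) ?_ ?_ ?_ ?_ hx
  · rintro x ⟨c, l, hl, hlen, rfl⟩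
    obtain ⟨y, hy, hyi, hyr⟩ := IP2.exists_letter ρ i l hl hlen
    rw [map_mul, IP2.bet_zero φ ρ π h2 i l y hy hyi hyr, mul_zero]
  · exact map_zero _
  · intro a b _ _ ha hb
    rw [map_add, ha, hb, add_zero]
  · intro a _ ha
    rw [map_neg, ha, neg_zero]

end Pool.Agent.Work.MP_79a731_al.FP
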